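import Pool.Agent.Helper65.KR.Tab

set_option autoImplicit false

/-! # Bounds of the rate of an edge over two cells

The grid is `z = (i - 176) / 256`; a cell is a number `lo + 512 * hi`, a velocity is `P - 32768`
in units of `2 ^ -13`. -/

namespace Pool.Agent.Helper65.KR

/-- value for the largest radicand over two cells -/
def q1 (c1 c2 : ℕ) : ℕ :=
  (fun a a' b b' => (fun Y => (fun X => (fun e d =>
    fL (Nat.shiftRight (Nat.sub (nat_lit 786495)
      (Nat.add (Nat.mul (nat_lit 3) (Nat.mul d d)) (Nat.mul e e))) (nat_lit 6)))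
    (Nat.add (Nat.sub (Nat.add X (nat_lit 352)) (Nat.mul (nat_lit 4) b'))
      (Nat.sub (Nat.mul (nat_lit 4) b) (Nat.add X (nat_lit 352))))
    (Nat.add (Nat.sub X (nat_lit 352)) (Nat.sub (nat_lit 352) X)))
    (Nat.add (Nat.add a a) (Nat.sub (Nat.sub Y (Nat.sub Y (Nat.add a' a'))) (Nat.add a a))))
    (Nat.add (Nat.add b (Nat.sub (Nat.sub (nat_lit 176) (Nat.sub (nat_lit 176) b')) b))
      (nat_lit 176)))
  (Nat.land c1 (nat_lit 511)) (Nat.shiftRight c1 (nat_lit 9)) (Nat.land c2 (nat_lit 511))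
  (Nat.shiftRight c2 (nat_lit 9))

/-- square of the distance to 88 -/
def ff (t : ℕ) : ℕ := Nat.sub (Nat.add (Nat.mul t t) (nat_lit 7744)) (Nat.mul (nat_lit 176) t)

/-- minimum -/
def mn (u v : ℕ) : ℕ := Nat.sub u (Nat.sub u v)

/-- radicand at a corner -/
def cQ (x y : ℕ) : ℕ := Nat.sub (Nat.add (Nat.mul x y) (nat_lit 33664)) (Nat.add (ff x) (ff y))

/-- value for the smallest radicand over two cells, `0` if it is too small -/
def q2 (c1 c2 : ℕ) : ℕ :=
  (fun a a' b b' =>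
  Nat.rec (motive := fun _ => ℕ) (nat_lit 0) (fun k _ => Nat.succ (fL (Nat.succ k)))
   (Nat.shiftRight (mn (mn (cQ a b) (cQ a b')) (mn (cQ a' b) (cQ a' b'))) (nat_lit 2)))
  (Nat.land c1 (nat_lit 511)) (Nat.shiftRight c1 (nat_lit 9)) (Nat.land c2 (nat_lit 511))
  (Nat.shiftRight c2 (nat_lit 9))

/-- positive part of the numerator -/
def nP (c1 P1 c2 P2 : ℕ) : ℕ :=
  Nat.add (Nat.add (Nat.mul (Nat.sub (Nat.add P2 P2) (Nat.add P1 (nat_lit 32768)))
    (Nat.shiftRight c1 (nat_lit 9)))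
    (Nat.mul (Nat.sub (Nat.add P1 P1) (Nat.add P2 (nat_lit 32768)))
    (Nat.shiftRight c2 (nat_lit 9)))) (nat_lit 11534336)

/-- negative part of the numerator -/
def nN (c1 P1 c2 P2 : ℕ) : ℕ :=
  Nat.add (Nat.add (Nat.mul (Nat.sub (Nat.add P1 (nat_lit 32768)) (Nat.add P2 P2))
    (Nat.land c1 (nat_lit 511)))
    (Nat.mul (Nat.sub (Nat.add P2 (nat_lit 32768)) (Nat.add P1 P1)) (Nat.land c2 (nat_lit 511))))
    (Nat.mul (nat_lit 176) (Nat.add P1 P2))

/-- the rate from the two parts of the numerator and the two values of the radicand -/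
def rG (N M u v : ℕ) : ℕ :=
  Nat.rec (motive := fun _ => ℕ)
    (Nat.rec (motive := fun _ => ℕ) (nat_lit 14680064) (fun g _ => Nat.add (nat_lit 8388619)
      (Nat.shiftRight (Nat.mul (Nat.sub N M) (Nat.succ g)) (nat_lit 23))) v)
    (fun k _ => Nat.add (nat_lit 8126464) (Nat.sub (nat_lit 262154)
      (Nat.shiftRight (Nat.mul (Nat.succ k) u) (nat_lit 23))))
    (Nat.sub M N)

/-- **the rate of an edge** over two cells with fixed velocities -/
def rp (c1 P1 c2 P2 : ℕ) : ℕ := rG (nP c1 P1 c2 P2) (nN c1 P1 c2 P2) (q1 c1 c2) (q2 c1 c2)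

end Pool.Agent.Helper65.KR
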