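import Pool.Agent.Helper65.KR.RateQ

set_option autoImplicit false

/-! # Soundness of the rate of an edge over two cells -/

namespace Pool.Agent.Helper65.KR

/-- height with grid index `i` -/
noncomputable def gc (i : ℕ) : ℝ := ((i : ℝ) - 176) / 256

/-- the height `x` is in the cell `c` -/
def InC (c : ℕ) (x : ℝ) : Prop := gc (c % 512) ≤ x ∧ x ≤ gc (c / 512)

/-- velocity with code `P` in units `ρ` -/
noncomputable def vel (ρ : ℝ) (P : ℕ) : ℝ := ((P : ℝ) - 32768) * ρ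

/-- numerator of the rate -/
noncomputable def LL (x y p q : ℝ) : ℝ := (y - x / 2) * p + (x - y / 2) * q

/-- radicand -/
noncomputable def QQ (x y : ℝ) : ℝ := 3 / 4 - x ^ 2 - y ^ 2 + x * y

/-- bound `c` of the rate -/
def Good (x y p q c : ℝ) : Prop :=
  (0 < QQ x y → LL x y p q / √(QQ x y) ≤ c) ∧ (QQ x y ≤ 0 → LL x y p q < 0)

/-- the number `R` is good for the velocities `p`, `q` -/
def PG (ρ x y p q : ℝ) (R : ℕ) : Prop :=
  2 ^ 23 + 2 ^ 22 + 2 ^ 21 ≤ R ∨ (2 ^ 23 - 2 ^ 18 ≤ R ∧ Good x y p q (((R : ℝ) - 8388618) * ρ))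

lemma Good.mono {x y p q c c' : ℝ} (h : Good x y p q c) (hc : c ≤ c') : Good x y p q c' :=
  ⟨fun h1 => (h.1 h1).trans hc, h.2⟩

lemma PG.mono {ρ x y p q : ℝ} {R R' : ℕ} (hρ : 0 < ρ) (h : PG ρ x y p q R) (hR : R ≤ R') :
    PG ρ x y p q R' := by
  rcases h with h | ⟨h1, h2⟩
  · exact Or.inl (h.trans hR)
  · refine Or.inr ⟨h1.trans hR, h2.mono ?_⟩
    have : (R : ℝ) ≤ R' := Nat.cast_le.2 hR
    exact mul_le_mul_of_nonneg_right (by linarith) hρ.le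

lemma InC.toI {c : ℕ} {x : ℝ} (h : InC c x) : InI c (256 * x + 176) := by
  obtain ⟨h1, h2⟩ := h
  unfold gc at h1 h2
  rw [div_le_iff₀ (by norm_num)] at h1
  rw [le_div_iff₀ (by norm_num)] at h2
  exact ⟨by linarith, by linarith⟩

lemma QI_QQ (x y : ℝ) : QI (256 * x + 176) (256 * y + 176) = 65536 * QQ x y := by
  unfold QI QQ; ring

/-- one term of the numerator -/
lemma term_le {u v a a' : ℕ} {s : ℝ} (h1 : (a : ℝ) ≤ s) (h2 : s ≤ a') :
    ((u : ℝ) - v) * s ≤ ((u - v : ℕ) : ℝ) * a' - ((v - u : ℕ) : ℝ) * a := by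
  rcases Nat.le_total u v with h | h
  · have e1 : u - v = 0 := Nat.sub_eq_zero_of_le h
    rw [e1, Nat.cast_sub h, Nat.cast_zero, zero_mul, zero_sub]
    have h3 : (u : ℝ) ≤ v := Nat.cast_le.2 h
    nlinarith
  · have e1 : v - u = 0 := Nat.sub_eq_zero_of_le h
    rw [e1, Nat.cast_sub h, Nat.cast_zero, zero_mul, sub_zero]
    have h3 : (v : ℝ) ≤ u := Nat.cast_le.2 h
    nlinarith

lemma nP_eq (c1 P1 c2 P2 : ℕ) : nP c1 P1 c2 P2 =
    (P2 + P2 - (P1 + 32768)) * (c1 / 512) + (P1 + P1 - (P2 + 32768)) * (c2 / 512) + 11534336 := by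
  rw [← shr9, ← shr9]
  rfl

lemma nN_eq (c1 P1 c2 P2 : ℕ) : nN c1 P1 c2 P2 =
    (P1 + 32768 - (P2 + P2)) * (c1 % 512) + (P2 + 32768 - (P1 + P1)) * (c2 % 512) +
      176 * (P1 + P2) := by
  rw [← land511, ← land511]
  rfl

/-- the numerator in grid units -/
lemma num_le {c1 P1 c2 P2 : ℕ} {s t : ℝ} (hs : InI c1 s) (ht : InI c2 t) :
    (2 * ((P2 : ℝ) - 32768) - (P1 - 32768)) * (s - 176) +
      (2 * ((P1 : ℝ) - 32768) - (P2 - 32768)) * (t - 176) ≤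
      (nP c1 P1 c2 P2 : ℝ) - nN c1 P1 c2 P2 := by
  have h1 := term_le (u := P2 + P2) (v := P1 + 32768) hs.1 hs.2
  have h2 := term_le (u := P1 + P1) (v := P2 + 32768) ht.1 ht.2
  rw [nP_eq, nN_eq]
  push_cast at h1 h2 ⊢
  nlinarith

lemma LL_eq (ρ x y : ℝ) (P1 P2 : ℕ) : LL x y (vel ρ P1) (vel ρ P2) =
    ρ / 512 * ((2 * ((P2 : ℝ) - 32768) - (P1 - 32768)) * (256 * x + 176 - 176) +
      (2 * ((P1 : ℝ) - 32768) - (P2 - 32768)) * (256 * y + 176 - 176)) := by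
  unfold LL vel; ring

lemma rate_form {ρ x y n w : ℝ} (hw : 0 < w) (hQ : w ^ 2 = 65536 * QQ x y) :
    ρ / 512 * n / √(QQ x y) = ρ * n / (2 * w) := by
  have h1 : QQ x y = (w / 256) ^ 2 := by rw [div_pow]; linarith
  rw [h1, Real.sqrt_sq (by positivity)]
  field_simp
  ring

lemma rF_neg {ρ x y n : ℝ} (hρ : 0 < ρ) {k F : ℕ} (hn : n ≤ -((k : ℝ) + 1))
    (hq : (F : ℝ) ^ 2 * (65536 * QQ x y) ≤ 2 ^ 44) {p q : ℝ} (hL : LL x y p q = ρ / 512 * n) :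
    PG ρ x y p q (8126464 + (262154 - (k + 1) * F / 2 ^ 23)) := by
  have hk : (0 : ℝ) ≤ k := Nat.cast_nonneg k
  have h2 : (((k + 1) * F / 2 ^ 23 : ℕ) : ℝ) * 2 ^ 23 ≤ ((k : ℝ) + 1) * F := by
    have : (k + 1) * F / 2 ^ 23 * 2 ^ 23 ≤ (k + 1) * F := Nat.div_mul_le_self _ _
    have := (Nat.cast_le (α := ℝ)).2 this
    rw [Nat.cast_mul, Nat.cast_mul, Nat.cast_pow] at this
    push_cast at this ⊢
    linarith
  generalize (k + 1) * F / 2 ^ 23 = fl at h2 ⊢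
  refine Or.inr ⟨by norm_num, ?_, ?_⟩
  · intro h
    have w0 : 0 < √(65536 * QQ x y) := Real.sqrt_pos.2 (by positivity)
    have w2 : √(65536 * QQ x y) ^ 2 = 65536 * QQ x y := Real.sq_sqrt (by positivity)
    generalize √(65536 * QQ x y) = w at w0 w2
    rw [hL, rate_form w0 w2]
    have h1 : (F : ℝ) * w ≤ 2 ^ 22 := by
      refine (abs_le_of_sq_le_sq' ?_ (by norm_num)).2
      rw [mul_pow, w2]
      calc _ ≤ _ := hq
        _ = _ := by norm_num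
    have h3 : ((8126464 + (262154 - fl) : ℕ) : ℝ) - 8388618 ≥ -(fl : ℝ) := by
      have : 8388618 ≤ 8126464 + (262154 - fl) + fl := by omega
      have : (8388618 : ℝ) ≤ ((8126464 + (262154 - fl) : ℕ) : ℝ) + fl := by exact_mod_cast this
      linarith
    have h4 : ρ * n / (2 * w) ≤ -(fl : ℝ) * ρ := by
      rw [div_le_iff₀ (by positivity)]
      have h5 : n ≤ -(fl : ℝ) * (2 * w) := by
        have h6 : (fl : ℝ) * 2 ^ 23 * w ≤ ((k : ℝ) + 1) * F * w := mul_le_mul_of_nonneg_right h2 w0.le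
        have h7 : ((k : ℝ) + 1) * (F * w) ≤ ((k : ℝ) + 1) * 2 ^ 22 :=
          mul_le_mul_of_nonneg_left h1 (by linarith)
        nlinarith
      calc ρ * n ≤ ρ * (-(fl : ℝ) * (2 * w)) := mul_le_mul_of_nonneg_left h5 hρ.le
        _ = _ := by ring
    exact h4.trans (mul_le_mul_of_nonneg_right h3 hρ.le)
  · intro _
    rw [hL]
    have : n < 0 := by linarith
    have h8 : 0 < ρ / 512 := by positivity
    nlinarith

lemma rF_pos {ρ x y n : ℝ} (hρ : 0 < ρ) {K g : ℕ} (hn : n ≤ K)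
    (hq : 2 ^ 44 < ((g : ℝ) + 1) ^ 2 * (65536 * QQ x y)) (hQ : 0 < QQ x y) {p q : ℝ}
    (hL : LL x y p q = ρ / 512 * n) :
    PG ρ x y p q (8388619 + K * (g + 1) / 2 ^ 23) := by
  have h2 : (K : ℝ) * (g + 1) ≤ (((K * (g + 1) / 2 ^ 23 : ℕ) : ℝ) + 1) * 2 ^ 23 := by
    have h3 : K * (g + 1) < (K * (g + 1) / 2 ^ 23 + 1) * 2 ^ 23 :=
      Nat.lt_mul_of_div_lt (Nat.lt_succ_self _) (by norm_num)
    have := (Nat.cast_le (α := ℝ)).2 h3.le
    rw [Nat.cast_mul, Nat.cast_mul, Nat.cast_add, Nat.cast_pow] at this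
    push_cast at this ⊢
    linarith
  generalize K * (g + 1) / 2 ^ 23 = fl at h2 ⊢
  refine Or.inr ⟨by norm_num; omega, ?_, fun h => absurd hQ (not_lt.2 h)⟩
  intro _
  have w0 : 0 < √(65536 * QQ x y) := Real.sqrt_pos.2 (by positivity)
  have w2 : √(65536 * QQ x y) ^ 2 = 65536 * QQ x y := Real.sq_sqrt (by positivity)
  generalize √(65536 * QQ x y) = w at w0 w2
  rw [hL, rate_form w0 w2]
  have h1 : (2 : ℝ) ^ 22 ≤ ((g : ℝ) + 1) * w := by
    refine (le_abs_self _).trans (abs_le_of_sq_le_sq ?_ (by positivity))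
    rw [mul_pow, w2]
    calc _ = (2 : ℝ) ^ 44 := by norm_num
      _ ≤ _ := hq.le
  have h3 : ((8388619 + fl : ℕ) : ℝ) - 8388618 = (fl : ℝ) + 1 := by push_cast; ring
  rw [h3]
  rw [div_le_iff₀ (by positivity)]
  have hK : (0 : ℝ) ≤ K := Nat.cast_nonneg K
  have h5 : n ≤ ((fl : ℝ) + 1) * (2 * w) := by
    have h6 : (K : ℝ) * 2 ^ 22 ≤ (K : ℝ) * ((g + 1) * w) := mul_le_mul_of_nonneg_left h1 hK
    have h7 : (K : ℝ) * (g + 1) * w ≤ ((fl : ℝ) + 1) * 2 ^ 23 * w :=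
      mul_le_mul_of_nonneg_right h2 w0.le
    nlinarith
  calc ρ * n ≤ ρ * (((fl : ℝ) + 1) * (2 * w)) := mul_le_mul_of_nonneg_left h5 hρ.le
    _ = _ := by ring

lemma shr23 (X : ℕ) : Nat.shiftRight X 23 = X / 2 ^ 23 := Nat.shiftRight_eq_div_pow X 23

lemma rfn_eq (k F : ℕ) : Nat.add (nat_lit 8126464)
    (Nat.sub (nat_lit 262154) (Nat.shiftRight (Nat.mul (Nat.succ k) F) (nat_lit 23))) =
    8126464 + (262154 - (k + 1) * F / 2 ^ 23) := by
  have h : Nat.shiftRight (Nat.mul (Nat.succ k) F) (nat_lit 23) = (k + 1) * F / 2 ^ 23 := shr23 _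
  exact congrArg (fun z => Nat.add (nat_lit 8126464) (Nat.sub (nat_lit 262154) z)) h

lemma rfp_eq (K g : ℕ) : Nat.add (nat_lit 8388619)
    (Nat.shiftRight (Nat.mul K (Nat.succ g)) (nat_lit 23)) = 8388619 + K * (g + 1) / 2 ^ 23 := by
  have h : Nat.shiftRight (Nat.mul K (Nat.succ g)) (nat_lit 23) = K * (g + 1) / 2 ^ 23 := shr23 _
  exact congrArg (fun z => Nat.add (nat_lit 8388619) z) h

lemma rG_cases (N M u v : ℕ) :
    (∃ k, M = N + (k + 1) ∧ rG N M u v = 8126464 + (262154 - (k + 1) * u / 2 ^ 23)) ∨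
    (M ≤ N ∧ v = 0 ∧ rG N M u v = 14680064) ∨
    (M ≤ N ∧ ∃ g, v = g + 1 ∧ rG N M u v = 8388619 + (N - M) * (g + 1) / 2 ^ 23) := by
  unfold rG
  cases hd : Nat.sub M N with
  | succ k =>
    have hd' : M - N = k + 1 := hd
    exact Or.inl ⟨k, by omega, rfn_eq k u⟩
  | zero =>
    have hd' : M - N = 0 := hd
    have hNM : M ≤ N := Nat.sub_eq_zero_iff_le.1 hd'
    cases v with
    | zero => exact Or.inr (Or.inl ⟨hNM, rfl, rfl⟩)
    | succ g => exact Or.inr (Or.inr ⟨hNM, g, rfl, rfp_eq (N - M) g⟩)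

/-- **soundness of the rate over two cells** -/
theorem rp_sound {ρ : ℝ} (hρ : 0 < ρ) {c1 P1 c2 P2 : ℕ} {x y : ℝ} (hx : InC c1 x) (hy : InC c2 y) :
    PG ρ x y (vel ρ P1) (vel ρ P2) (rp c1 P1 c2 P2) := by
  have hs := hx.toI
  have ht := hy.toI
  have hn := num_le (P1 := P1) (P2 := P2) hs ht
  have hL := LL_eq ρ x y P1 P2
  have hq1 := q1_spec hs ht
  have hq2 := fun g => q2_spec hs ht (g := g)
  rw [QI_QQ] at hq1
  unfold rp
  generalize nP c1 P1 c2 P2 = N at hn ⊢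
  generalize nN c1 P1 c2 P2 = M at hn ⊢
  generalize q1 c1 c2 = u at hq1 ⊢
  generalize q2 c1 c2 = v at hq2 ⊢
  rcases rG_cases N M u v with ⟨k, h1, h2⟩ | ⟨h1, h2, h3⟩ | ⟨h1, g, h2, h3⟩
  · rw [h2]
    refine rF_neg hρ (hn.trans ?_) hq1 hL
    rw [h1]
    push_cast
    linarith
  · rw [h3]
    exact Or.inl (by norm_num)
  · rw [h3]
    obtain ⟨g1, g2, -⟩ := hq2 g h2
    rw [QI_QQ] at g1 g2
    refine rF_pos hρ (hn.trans (le_of_eq ?_)) g1 (by linarith) hL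
    rw [Nat.cast_sub h1]

end Pool.Agent.Helper65.KR
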