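import Pool.Agent.Helper65.KR.Rate

set_option autoImplicit false

/-! # Soundness of the radicand bounds -/

namespace Pool.Agent.Helper65.KR

/-- radicand in grid units, from shifted coordinates -/
def QI (s t : ℝ) : ℝ := 49152 - (s - 176) ^ 2 - (t - 176) ^ 2 + (s - 176) * (t - 176)

/-- the point with shifted coordinate `s` is in the cell -/
def InI (c : ℕ) (s : ℝ) : Prop := ((c % 512 : ℕ) : ℝ) ≤ s ∧ s ≤ ((c / 512 : ℕ) : ℝ)

lemma land511 (c : ℕ) : Nat.land c 511 = c % 512 := Nat.and_two_pow_sub_one_eq_mod c 9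

lemma shr9 (c : ℕ) : Nat.shiftRight c 9 = c / 512 := Nat.shiftRight_eq_div_pow c 9

/-! ### largest radicand -/

lemma qmax_pos {b x0 X Y : ℝ} (h1 : b ≤ Y) (g1 : 0 < b) (f1 : b ≤ 2 * x0) (f2 : x0 ≤ X)
    (k1 : x0 < 2 * b) : 3 * x0 ^ 2 + (2 * b - x0) ^ 2 ≤ 3 * X ^ 2 + (2 * Y - X) ^ 2 := by
  rcases le_total X (2 * b) with h | h
  · have a1 : 0 ≤ (Y - b) * (Y + b - X) := mul_nonneg (by linarith) (by linarith)
    have a2 : 0 ≤ (X - x0) * (X + x0 - b) := mul_nonneg (by linarith) (by linarith)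
    nlinarith
  · have a1 : 0 ≤ (2 * b - x0) * (x0 + b) := mul_nonneg (by linarith) (by linarith)
    have a2 : 0 ≤ (X - 2 * b) * (X + 2 * b) := mul_nonneg (by linarith) (by linarith)
    nlinarith [sq_nonneg (2 * Y - X)]

lemma qmax_aux {b b' y0 x0 X Y : ℝ} (h1 : b ≤ Y) (h2 : Y ≤ b')
    (hy : (b ≤ 0 ∧ 0 ≤ b' ∧ y0 = 0) ∨ (0 < b ∧ y0 = b) ∨ (b' < 0 ∧ y0 = b'))
    (hx : 2 * x0 = y0 ∨ (y0 ≤ 2 * x0 ∧ x0 ≤ X) ∨ (2 * x0 ≤ y0 ∧ X ≤ x0))
    {e : ℝ} (he : (2 * b ≤ x0 ∧ x0 ≤ 2 * b' ∧ e = 0) ∨ (x0 < 2 * b ∧ e = 2 * b - x0) ∨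
      (2 * b' < x0 ∧ e = x0 - 2 * b')) :
    3 * x0 ^ 2 + e ^ 2 ≤ 3 * X ^ 2 + (2 * Y - X) ^ 2 := by
  rcases hy with ⟨g1, g2, g3⟩ | ⟨g1, g3⟩ | ⟨g1, g3⟩ <;>
  rcases hx with f | ⟨f1, f2⟩ | ⟨f1, f2⟩ <;>
  rcases he with ⟨k1, k2, k3⟩ | ⟨k1, k3⟩ | ⟨k1, k3⟩ <;>
  subst k3
  all_goals first
    | nlinarith [sq_nonneg (2 * Y - X), sq_nonneg X, sq_nonneg Y, sq_nonneg (X - Y)]
    | skip
  · nlinarith [sq_nonneg (2 * X - Y)]
  · exact qmax_pos h1 g1 (by linarith) f2 k1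
  · nlinarith [sq_nonneg (2 * X - Y)]
  · have := qmax_pos (b := -b') (x0 := -x0) (X := -X) (Y := -Y) (by linarith) (by linarith)
      (by linarith) (by linarith) (by linarith)
    nlinarith

/-- the truncated form of the bound of the radicand from above -/
def mQ1 (a a' b b' : ℕ) : ℕ :=
  (fun Y => (fun X => (fun e d =>
    (Nat.shiftRight (Nat.sub (nat_lit 786495)
      (Nat.add (Nat.mul (nat_lit 3) (Nat.mul d d)) (Nat.mul e e))) (nat_lit 6)))
    (Nat.add (Nat.sub (Nat.add X (nat_lit 352)) (Nat.mul (nat_lit 4) b'))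
      (Nat.sub (Nat.mul (nat_lit 4) b) (Nat.add X (nat_lit 352))))
    (Nat.add (Nat.sub X (nat_lit 352)) (Nat.sub (nat_lit 352) X)))
    (Nat.add (Nat.add a a) (Nat.sub (Nat.sub Y (Nat.sub Y (Nat.add a' a'))) (Nat.add a a))))
    (Nat.add (Nat.add b (Nat.sub (Nat.sub (nat_lit 176) (Nat.sub (nat_lit 176) b')) b))
      (nat_lit 176))

lemma mQ1_eq (a a' b b' : ℕ) : ∃ Y X e d : ℕ, Y = b + (176 - (176 - b') - b) + 176 ∧
    X = (a + a) + (Y - (Y - (a' + a')) - (a + a)) ∧ e = (X + 352 - 4 * b') + (4 * b - (X + 352)) ∧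
    d = (X - 352) + (352 - X) ∧ mQ1 a a' b b' = (786495 - (3 * (d * d) + e * e)) / 2 ^ 6 :=
  ⟨_, _, _, _, rfl, rfl, rfl, rfl, Nat.shiftRight_eq_div_pow _ 6⟩

theorem mQ1_ge {a a' b b' : ℕ} {s t : ℝ} (hs : (a : ℝ) ≤ s ∧ s ≤ a') (ht : (b : ℝ) ≤ t ∧ t ≤ b') :
    QI s t ≤ 4 * mQ1 a a' b b' ∧ mQ1 a a' b b' ≤ 12288 := by
  obtain ⟨Y, X, e, d, hY, hX, he, hd, hm⟩ := mQ1_eq a a' b b'
  have hab : a ≤ a' := by
    have : (a : ℝ) ≤ a' := hs.1.trans hs.2
    exact_mod_cast this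
  have hbb : b ≤ b' := by
    have : (b : ℝ) ≤ b' := ht.1.trans ht.2
    exact_mod_cast this
  rw [hm]
  refine ⟨?_, by omega⟩
  -- the point of minimum
  have key := qmax_aux (b := 4 * ((b : ℝ) - 176)) (b' := 4 * ((b' : ℝ) - 176))
    (y0 := 4 * ((Y : ℝ) - 352)) (x0 := 2 * ((X : ℝ) - 352)) (X := 4 * (s - 176)) (Y := 4 * (t - 176))
    (e := 2 * (e : ℝ)) (by linarith [ht.1]) (by linarith [ht.2]) ?_ ?_ ?_
  · have hdd : ((X : ℝ) - 352) ^ 2 = (d : ℝ) * d := by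
      rcases Nat.lt_or_ge X 352 with h | h
      · have e1 : d + X = 352 := by omega
        have e2 : (d : ℝ) + X = 352 := by exact_mod_cast e1
        have e3 : (d : ℝ) = 352 - X := by linarith
        rw [e3]; ring
      · have e1 : d + 352 = X := by omega
        have e2 : (d : ℝ) + 352 = X := by exact_mod_cast e1
        have e3 : (d : ℝ) = X - 352 := by linarith
        rw [e3]; ring
    have h1 : 16 * QI s t = 786432 - (3 * (4 * (s - 176)) ^ 2 + (2 * (4 * (t - 176)) - 4 * (s - 176)) ^ 2) / 4 := by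
      unfold QI; ring
    have h2 : 16 * QI s t ≤ 786432 - (3 * ((d : ℝ) * d) + e * e) := by
      rw [h1, ← hdd]
      have k1 : 3 * (2 * ((X : ℝ) - 352)) ^ 2 + (2 * (e : ℝ)) ^ 2 =
        4 * (3 * ((X : ℝ) - 352) ^ 2 + e * e) := by ring
      rw [k1] at key
      linarith
    have h3 : 786432 + 63 ≤ ((786495 - (3 * (d * d) + e * e)) / 2 ^ 6) * 64 + 63 +
        (3 * (d * d) + e * e) := by omega
    have h4 : (786432 : ℝ) + 63 ≤ (((786495 - (3 * (d * d) + e * e)) / 2 ^ 6 : ℕ) : ℝ) * 64 + 63 +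
        (3 * ((d : ℝ) * d) + e * e) := by exact_mod_cast h3
    linarith
  · rcases Nat.lt_or_ge b' 176 with h | h
    · have e1 : Y = b' + 176 := by omega
      have e2 : (Y : ℝ) = b' + 176 := by exact_mod_cast e1
      have e3 : (b' : ℝ) < 176 := by exact_mod_cast h
      exact Or.inr (Or.inr ⟨by linarith, by rw [e2]; ring⟩)
    · rcases Nat.lt_or_ge 176 b with h' | h'
      · have e1 : Y = b + 176 := by omega
        have e2 : (Y : ℝ) = b + 176 := by exact_mod_cast e1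
        have e3 : (176 : ℝ) < b := by exact_mod_cast h'
        exact Or.inr (Or.inl ⟨by linarith, by rw [e2]; ring⟩)
      · have e1 : Y = 352 := by omega
        have e2 : (Y : ℝ) = 352 := by exact_mod_cast e1
        have e3 : (b : ℝ) ≤ 176 := by exact_mod_cast h'
        have e4 : (176 : ℝ) ≤ b' := by exact_mod_cast h
        exact Or.inl ⟨by linarith, by linarith, by rw [e2]; ring⟩
  · rcases Nat.lt_or_ge Y (a + a) with h | h
    · have e1 : X = a + a := by omega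
      have e2 : (X : ℝ) = a + a := by exact_mod_cast e1
      have e3 : (Y : ℝ) < a + a := by exact_mod_cast h
      exact Or.inr (Or.inl ⟨by linarith, by linarith [hs.1]⟩)
    · rcases Nat.lt_or_ge (a' + a') Y with h' | h'
      · have e1 : X = a' + a' := by omega
        have e2 : (X : ℝ) = a' + a' := by exact_mod_cast e1
        have e3 : (a' : ℝ) + a' < Y := by exact_mod_cast h'
        exact Or.inr (Or.inr ⟨by linarith, by linarith [hs.2]⟩)
      · have e1 : X = Y := by omega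
        exact Or.inl (by rw [e1]; ring)
  · rcases Nat.lt_or_ge (X + 352) (4 * b) with h | h
    · have e1 : e + X + 352 = 4 * b := by omega
      have e2 : (e : ℝ) + X + 352 = 4 * b := by exact_mod_cast e1
      have e3 : (X : ℝ) + 352 < 4 * b := by exact_mod_cast h
      exact Or.inr (Or.inl ⟨by linarith, by linarith⟩)
    · rcases Nat.lt_or_ge (4 * b') (X + 352) with h' | h'
      · have e1 : e + 4 * b' = X + 352 := by omega
        have e2 : (e : ℝ) + 4 * b' = X + 352 := by exact_mod_cast e1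
        have e3 : (4 : ℝ) * b' < X + 352 := by exact_mod_cast h'
        exact Or.inr (Or.inr ⟨by linarith, by linarith⟩)
      · have e1 : e = 0 := by omega
        have e2 : (e : ℝ) = 0 := by exact_mod_cast e1
        have e3 : (X : ℝ) + 352 ≤ 4 * b' := by exact_mod_cast h'
        have e4 : (4 : ℝ) * b ≤ X + 352 := by exact_mod_cast h
        exact Or.inl ⟨by linarith, by linarith, by rw [e2]; ring⟩

lemma q1_eq (c1 c2 : ℕ) : q1 c1 c2 = fL (mQ1 (c1 % 512) (c1 / 512) (c2 % 512) (c2 / 512)) := by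
  rw [← land511, ← land511, ← shr9, ← shr9]
  rfl

/-- **the bound with the largest radicand** -/
theorem q1_spec {c1 c2 : ℕ} {s t : ℝ} (hs : InI c1 s) (ht : InI c2 t) :
    (q1 c1 c2 : ℝ) ^ 2 * QI s t ≤ 2 ^ 44 := by
  obtain ⟨h1, h2⟩ := mQ1_ge hs ht
  rw [q1_eq]
  set m := mQ1 (c1 % 512) (c1 / 512) (c2 % 512) (c2 / 512)
  rcases Nat.eq_zero_or_pos m with h | h
  · rw [h, fL_zero]; norm_num
  · have h3 := (fL_spec h h2).1
    have h4 : (fL m : ℝ) * fL m * m ≤ 2 ^ 42 := by exact_mod_cast h3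
    have h5 : (fL m : ℝ) ^ 2 * QI s t ≤ (fL m : ℝ) ^ 2 * (4 * m) :=
      mul_le_mul_of_nonneg_left h1 (sq_nonneg _)
    nlinarith

/-! ### smallest radicand -/

lemma ff_eq (t : ℕ) : ((ff t : ℕ) : ℝ) = ((t : ℝ) - 88) ^ 2 := by
  have h0 : 176 * t ≤ t * t + 7744 := by
    zify
    nlinarith [sq_nonneg ((t : ℤ) - 88)]
  have h : ff t + 176 * t = t * t + 7744 := by
    show (t * t + 7744 - 176 * t) + 176 * t = _
    omega
  have h2 : ((ff t : ℕ) : ℝ) + 176 * t = t * t + 7744 := by exact_mod_cast h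
  linarith [h2]

lemma mn_le (u v : ℕ) : mn u v ≤ u ∧ mn u v ≤ v := by
  have : mn u v = u - (u - v) := rfl
  omega

lemma cQ_spec {x y m : ℕ} (hm : 0 < m) (h : m ≤ cQ x y) : (m : ℝ) ≤ QI x y := by
  have e : cQ x y = x * y + 33664 - (ff x + ff y) := rfl
  have h1 : m + (ff x + ff y) ≤ x * y + 33664 := by omega
  have h2 : (m : ℝ) + (ff x + ff y) ≤ x * y + 33664 := by exact_mod_cast h1
  rw [ff_eq, ff_eq] at h2
  unfold QI
  linarith

lemma concave_ge {α β γ T a a' t : ℝ} (h1 : a ≤ t) (h2 : t ≤ a')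
    (ha : T ≤ -α * a ^ 2 + β * a + γ) (ha' : T ≤ -α * a' ^ 2 + β * a' + γ) (hα : 0 ≤ α) :
    T ≤ -α * t ^ 2 + β * t + γ := by
  rcases h1.eq_or_lt with h | h
  · rw [← h]; exact ha
  have hp : 0 < a' - a := by linarith
  have k1 : 0 ≤ α * ((t - a) * (a' - t)) := mul_nonneg hα (mul_nonneg (by linarith) (by linarith))
  have k2 : (a' - t) * T ≤ (a' - t) * (-α * a ^ 2 + β * a + γ) :=
    mul_le_mul_of_nonneg_left ha (by linarith)
  have k3 : (t - a) * T ≤ (t - a) * (-α * a' ^ 2 + β * a' + γ) :=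
    mul_le_mul_of_nonneg_left ha' (by linarith)
  have k4 : 0 ≤ (a' - a) * (α * ((t - a) * (a' - t))) := mul_nonneg hp.le k1
  refine le_of_mul_le_mul_left ?_ hp
  nlinarith

lemma QI_ge {a a' b b' T s t : ℝ} (hs : a ≤ s ∧ s ≤ a') (ht : b ≤ t ∧ t ≤ b')
    (h1 : T ≤ QI a b) (h2 : T ≤ QI a b') (h3 : T ≤ QI a' b) (h4 : T ≤ QI a' b') :
    T ≤ QI s t := by
  have g1 : T ≤ QI a t := by
    have := concave_ge (α := 1) (β := 176 + a) (γ := 49152 - (a - 176) ^ 2 - 176 * a) (T := T) (a := b)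
      (a' := b') (t := t) ht.1 ht.2 (by unfold QI at h1; nlinarith) (by unfold QI at h2; nlinarith)
      zero_le_one
    unfold QI; nlinarith
  have g2 : T ≤ QI a' t := by
    have := concave_ge (α := 1) (β := 176 + a') (γ := 49152 - (a' - 176) ^ 2 - 176 * a') (T := T)
      (a := b) (a' := b') (t := t) ht.1 ht.2 (by unfold QI at h3; nlinarith)
      (by unfold QI at h4; nlinarith) zero_le_one
    unfold QI; nlinarith
  have := concave_ge (α := 1) (β := 176 + t) (γ := 49152 - (t - 176) ^ 2 - 176 * t) (T := T)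
    (a := a) (a' := a') (t := s) hs.1 hs.2 (by unfold QI at g1; nlinarith)
    (by unfold QI at g2; nlinarith) zero_le_one
  unfold QI; nlinarith

lemma QI_le (s t : ℝ) : QI s t ≤ 49152 := by
  unfold QI
  nlinarith [sq_nonneg (s - 176 - (t - 176) / 2), sq_nonneg (t - 176)]

/-- bound of the radicand from below -/
def mQ2 (a a' b b' : ℕ) : ℕ :=
  Nat.shiftRight (mn (mn (cQ a b) (cQ a b')) (mn (cQ a' b) (cQ a' b'))) (nat_lit 2)

lemma q2_eq (c1 c2 : ℕ) : q2 c1 c2 = Nat.rec (motive := fun _ => ℕ) 0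
    (fun k _ => Nat.succ (fL (Nat.succ k)))
    (mQ2 (c1 % 512) (c1 / 512) (c2 % 512) (c2 / 512)) := by
  rw [← land511, ← land511, ← shr9, ← shr9]
  rfl

theorem mQ2_le {a a' b b' : ℕ} {s t : ℝ} (hs : (a : ℝ) ≤ s ∧ s ≤ a') (ht : (b : ℝ) ≤ t ∧ t ≤ b')
    (h : 0 < mQ2 a a' b b') : 4 * (mQ2 a a' b b' : ℝ) ≤ QI s t ∧ mQ2 a a' b b' ≤ 12288 := by
  have e : mQ2 a a' b b' = mn (mn (cQ a b) (cQ a b')) (mn (cQ a' b) (cQ a' b')) / 2 ^ 2 :=
    Nat.shiftRight_eq_div_pow _ 2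
  set u := mn (mn (cQ a b) (cQ a b')) (mn (cQ a' b) (cQ a' b')) with hu
  have hu4 : 4 * mQ2 a a' b b' ≤ u := by omega
  have h0 : 0 < u := by omega
  have m1 := mn_le (mn (cQ a b) (cQ a b')) (mn (cQ a' b) (cQ a' b'))
  have m2 := mn_le (cQ a b) (cQ a b')
  have m3 := mn_le (cQ a' b) (cQ a' b')
  rw [← hu] at m1
  have key : (u : ℝ) ≤ QI s t := QI_ge hs ht (cQ_spec h0 (m1.1.trans m2.1))
    (cQ_spec h0 (m1.1.trans m2.2)) (cQ_spec h0 (m1.2.trans m3.1)) (cQ_spec h0 (m1.2.trans m3.2))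
  have hu4' : 4 * (mQ2 a a' b b' : ℝ) ≤ u := by exact_mod_cast hu4
  refine ⟨hu4'.trans key, ?_⟩
  have : (u : ℝ) ≤ 49152 := key.trans (QI_le s t)
  have : u ≤ 49152 := by exact_mod_cast this
  omega

/-- **the bound with the smallest radicand** -/
theorem q2_spec {c1 c2 : ℕ} {s t : ℝ} (hs : InI c1 s) (ht : InI c2 t) {g : ℕ}
    (hg : q2 c1 c2 = g + 1) : 2 ^ 44 < ((g : ℝ) + 1) ^ 2 * QI s t ∧ 0 < QI s t ∧ g ≤ 2 ^ 21 := by
  rw [q2_eq] at hg
  cases hm : mQ2 (c1 % 512) (c1 / 512) (c2 % 512) (c2 / 512) with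
  | zero => rw [hm] at hg; exact absurd hg (by simp)
  | succ k =>
    rw [hm] at hg
    have hg' : fL (k + 1) = g := Nat.succ.inj hg
    obtain ⟨h1, h2⟩ := mQ2_le hs ht (by rw [hm]; exact Nat.succ_pos k)
    rw [hm] at h1 h2
    have h3 := fL_spec (m := k + 1) (by omega) h2
    rw [hg'] at h3
    have h7 := h3.1
    have h4 : (2 : ℝ) ^ 42 < ((g : ℝ) + 1) * (g + 1) * ((k + 1 : ℕ) : ℝ) := by exact_mod_cast h3.2
    have h5 : ((g : ℝ) + 1) ^ 2 * (4 * ((k + 1 : ℕ) : ℝ)) ≤ ((g : ℝ) + 1) ^ 2 * QI s t :=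
      mul_le_mul_of_nonneg_left h1 (sq_nonneg _)
    clear hm hg' h3 hg
    refine ⟨?_, ?_, ?_⟩
    · have k1 : ((g : ℝ) + 1) ^ 2 * (4 * ((k + 1 : ℕ) : ℝ)) =
        4 * (((g : ℝ) + 1) * (g + 1) * ((k + 1 : ℕ) : ℝ)) := by ring
      rw [k1] at h5
      linarith
    · have : (0 : ℝ) < ((k + 1 : ℕ) : ℝ) := by positivity
      linarith
    · by_contra hcon
      push Not at hcon
      have h6 : (2 ^ 21 + 1) * (2 ^ 21 + 1) * 1 ≤ g * g * (k + 1) :=
        Nat.mul_le_mul (Nat.mul_le_mul hcon hcon) (by omega)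
      norm_num at h6 h7
      omega

end Pool.Agent.Helper65.KR
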