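import Pool.Agent.Helper65.KR.Rate

set_option autoImplicit false

/-! # The number of a pair of nodes: options of the nodes

A node is given by its cell `c = lo + 512 * hi` (grid `z = (i - 176) / 256`), the velocity
`P - 32768` above the height `-1/2` and the velocity `P + w - 32768` below it. -/

namespace Pool.Agent.Helper65.KR

/-- type of a node: `0` plain, `1` static, `2` at the wall, `3` two velocities, `4` not allowed -/
def ty (c P w : ℕ) : ℕ :=
  Nat.rec (motive := fun _ => ℕ)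
    (Nat.rec (motive := fun _ => ℕ)
      (Nat.rec (motive := fun _ => ℕ) (nat_lit 1) (fun _ _ => nat_lit 0)
        (Nat.sub (nat_lit 32768) P))
      (fun _ _ => Nat.rec (motive := fun _ => ℕ) (nat_lit 0) (fun _ _ => nat_lit 2)
        (Nat.sub (Nat.shiftRight c (nat_lit 9)) (nat_lit 303)))
      (Nat.sub P (nat_lit 32768)))
    (fun _ _ => Nat.rec (motive := fun _ => ℕ)
      (Nat.rec (motive := fun _ => ℕ)
        (Nat.rec (motive := fun _ => ℕ) (nat_lit 3)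
          (fun _ _ => Nat.rec (motive := fun _ => ℕ) (nat_lit 3) (fun _ _ => nat_lit 4)
            (Nat.sub (Nat.shiftRight c (nat_lit 9)) (nat_lit 303)))
          (Nat.sub P (nat_lit 32768)))
        (fun _ _ => nat_lit 4)
        (Nat.sub (Nat.add P w) (nat_lit 65535)))
      (fun _ _ => nat_lit 4)
      (Nat.sub (nat_lit 32768) P))
    w

/-- maximum -/
def mx (u v : ℕ) : ℕ := Nat.add u (Nat.sub v u)

/-- the part of a cell above `-1/2` -/
def sh (c : ℕ) : ℕ := Nat.add c (Nat.sub (nat_lit 48) (Nat.land c (nat_lit 511)))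

/-- the part of a cell below `-1/2` -/
def dp (c : ℕ) : ℕ :=
  Nat.sub c (Nat.mul (nat_lit 512) (Nat.sub (Nat.shiftRight c (nat_lit 9)) (nat_lit 48)))

/-- a point at the wall with velocity zero against a node -/
def wop (c P : ℕ) : ℕ :=
  Nat.rec (motive := fun _ => ℕ) (nat_lit 0)
    (fun _ _ => rp (nat_lit 155952) (nat_lit 32768) (sh c) P)
    (Nat.sub (Nat.shiftRight c (nat_lit 9)) (nat_lit 47))

/-- a point at the wall with velocity zero against a static node -/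
def wst (c : ℕ) : ℕ :=
  Nat.rec (motive := fun _ => ℕ) (nat_lit 0)
    (fun _ _ => Nat.rec (motive := fun _ => ℕ) (nat_lit 8388618)
      (fun _ _ => rp (nat_lit 155952) (nat_lit 32768) (sh c) (nat_lit 32768))
      (Nat.sub (Nat.shiftRight c (nat_lit 9)) (nat_lit 239)))
    (Nat.sub (Nat.shiftRight c (nat_lit 9)) (nat_lit 47))

/-- four cases and a default -/
def sel (t a0 a1 a2 a3 : ℕ) : ℕ :=
  Nat.rec (motive := fun _ => ℕ) a0
    (fun t _ => Nat.rec (motive := fun _ => ℕ) a1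
      (fun t _ => Nat.rec (motive := fun _ => ℕ) a2
        (fun t _ => Nat.rec (motive := fun _ => ℕ) a3 (fun _ _ => nat_lit 14680064) t) t) t) t

/-- `X` if `P <= T`, otherwise `B` -/
def gte (T B X P : ℕ) : ℕ := Nat.rec (motive := fun _ => ℕ) X (fun _ _ => B) (Nat.sub P T)

/-- first node at the wall, second node with two velocities -/
def wsp (c1 P1 c2 P2 w2 : ℕ) : ℕ :=
  gte (nat_lit 32768) (nat_lit 14680064)
    (mx (mx (rp c1 P1 (sh c2) P2) (rp c1 P1 (dp c2) (Nat.add P2 w2))) (nat_lit 8388618)) P2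

/-- first node with two velocities, second node at the wall -/
def spw (c1 P1 w1 c2 P2 : ℕ) : ℕ :=
  gte (nat_lit 32768) (nat_lit 14680064)
    (mx (mx (rp (sh c1) P1 c2 P2) (rp (dp c1) (Nat.add P1 w1) c2 P2)) (nat_lit 8388618)) P1

/-- first node plain -/
def rup0 (c1 P1 c2 P2 w2 : ℕ) : ℕ :=
  sel (ty c2 P2 w2) (rp c1 P1 c2 P2) (rp c1 P1 c2 P2) (mx (rp c1 P1 c2 P2) (wop c1 P1))
    (mx (rp c1 P1 (sh c2) P2) (rp c1 P1 (dp c2) (Nat.add P2 w2)))

/-- first node static -/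
def rup1 (c1 P1 c2 P2 w2 : ℕ) : ℕ :=
  sel (ty c2 P2 w2) (rp c1 P1 c2 P2) (nat_lit 8388607) (mx (rp c1 P1 c2 P2) (wst c1))
    (mx (rp c1 P1 (sh c2) P2) (rp c1 P1 (dp c2) (Nat.add P2 w2)))

/-- first node at the wall -/
def rup2 (c1 P1 c2 P2 w2 : ℕ) : ℕ :=
  sel (ty c2 P2 w2) (mx (rp c1 P1 c2 P2) (wop c2 P2)) (mx (rp c1 P1 c2 P2) (wst c2))
    (mx (rp c1 P1 c2 P2) (mx (wop c1 P1) (wop c2 P2))) (wsp c1 P1 c2 P2 w2)

/-- first node with two velocities -/
def rup3 (c1 P1 w1 c2 P2 w2 : ℕ) : ℕ :=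
  sel (ty c2 P2 w2) (mx (rp (sh c1) P1 c2 P2) (rp (dp c1) (Nat.add P1 w1) c2 P2))
    (mx (rp (sh c1) P1 c2 P2) (rp (dp c1) (Nat.add P1 w1) c2 P2)) (spw c1 P1 w1 c2 P2)
    (mx (mx (rp (sh c1) P1 (sh c2) P2) (rp (sh c1) P1 (dp c2) (Nat.add P2 w2)))
      (mx (rp (dp c1) (Nat.add P1 w1) (sh c2) P2) (rp (dp c1) (Nat.add P1 w1) (dp c2) (Nat.add P2 w2))))

/-- **the number of a pair of nodes** -/
def rup (c1 P1 w1 c2 P2 w2 : ℕ) : ℕ :=
  sel (ty c1 P1 w1) (rup0 c1 P1 c2 P2 w2) (rup1 c1 P1 c2 P2 w2) (rup2 c1 P1 c2 P2 w2)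
    (rup3 c1 P1 w1 c2 P2 w2)

end Pool.Agent.Helper65.KR
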