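import Pool.Agent.Helper65.KR.RupS

set_option autoImplicit false

/-! # The number of a pair of nodes is at most `2 ^ 24` -/

namespace Pool.Agent.Helper65.KR

lemma cQ_le (x y : ℕ) : cQ x y ≤ 49152 := by
  rcases Nat.eq_zero_or_pos (cQ x y) with h | h
  · rw [h]; norm_num
  · have h1 := (cQ_spec h le_rfl).trans (QI_le x y)
    exact_mod_cast h1

lemma mQ2_le' (a a' b b' : ℕ) : mQ2 a a' b b' ≤ 12288 := by
  have e : mQ2 a a' b b' = mn (mn (cQ a b) (cQ a b')) (mn (cQ a' b) (cQ a' b')) / 2 ^ 2 :=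
    Nat.shiftRight_eq_div_pow _ 2
  have m1 := mn_le (mn (cQ a b) (cQ a b')) (mn (cQ a' b) (cQ a' b'))
  have m2 := mn_le (cQ a b) (cQ a b')
  have m3 := cQ_le a b
  rw [e]
  omega

lemma q2_le {c1 c2 g : ℕ} (hg : q2 c1 c2 = g + 1) : g ≤ 2 ^ 21 := by
  rw [q2_eq] at hg
  have h2 := mQ2_le' (c1 % 512) (c1 / 512) (c2 % 512) (c2 / 512)
  cases hm : mQ2 (c1 % 512) (c1 / 512) (c2 % 512) (c2 / 512) with
  | zero => rw [hm] at hg; exact absurd hg (by simp)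
  | succ k =>
    rw [hm] at hg h2
    have hg' : fL (k + 1) = g := Nat.succ.inj hg
    have h3 := (fL_spec (m := k + 1) (by omega) h2).1
    rw [hg'] at h3
    clear hm hg' hg h2
    by_contra hcon
    push Not at hcon
    have h6 : (2 ^ 21 + 1) * (2 ^ 21 + 1) * 1 ≤ g * g * (k + 1) :=
      Nat.mul_le_mul (Nat.mul_le_mul hcon hcon) (by omega)
    norm_num at h6 h3
    omega

lemma num_bound {c1 P1 c2 P2 : ℕ} (h1 : c1 / 512 ≤ 304) (h2 : c2 / 512 ≤ 304) (k1 : P1 ≤ 65535)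
    (k2 : P2 ≤ 65535) : nP c1 P1 c2 P2 ≤ nN c1 P1 c2 P2 + 29884416 := by
  rw [nP_eq, nN_eq]
  have a1 : (P2 + P2 - (P1 + 32768)) * (c1 / 512) ≤ (P2 + P2 - (P1 + 32768)) * 304 :=
    Nat.mul_le_mul le_rfl h1
  have a2 : (P1 + P1 - (P2 + 32768)) * (c2 / 512) ≤ (P1 + P1 - (P2 + 32768)) * 304 :=
    Nat.mul_le_mul le_rfl h2
  have a3 : (P2 + P2 - (P1 + 32768)) * 304 + (P1 + P1 - (P2 + 32768)) * 304 + 11534336 ≤
      176 * (P1 + P2) + 29884416 := by omega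
  have fin : ∀ t1 t2 t3 t4 A B C : ℕ, t1 ≤ A → t2 ≤ B → A + B + 11534336 ≤ C + 29884416 →
      t1 + t2 + 11534336 ≤ t3 + t4 + C + 29884416 := by
    intro t1 t2 t3 t4 A B C q1 q2 q3
    omega
  exact fin _ _ _ _ _ _ _ a1 a2 a3

lemma rG_le {N M u v : ℕ} (h : N ≤ M + 29884416) (hv : ∀ g, v = g + 1 → g ≤ 2 ^ 21) :
    rG N M u v ≤ 2 ^ 24 := by
  rcases rG_cases N M u v with ⟨k, h1, h2⟩ | ⟨h1, h2, h3⟩ | ⟨h1, g, h2, h3⟩
  · rw [h2]
    generalize (k + 1) * u / 2 ^ 23 = t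
    norm_num
    omega
  · rw [h3]; norm_num
  · rw [h3]
    have h4 : (N - M) * (g + 1) ≤ 29884416 * (2 ^ 21 + 1) :=
      Nat.mul_le_mul (by omega) (by have := hv g h2; omega)
    have h5 : (N - M) * (g + 1) / 2 ^ 23 ≤ 29884416 * (2 ^ 21 + 1) / 2 ^ 23 :=
      Nat.div_le_div_right h4
    have h6 : 29884416 * (2 ^ 21 + 1) / 2 ^ 23 ≤ 7471108 := by norm_num
    have h7 := h5.trans h6
    generalize (N - M) * (g + 1) / 2 ^ 23 = t at h7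
    norm_num
    omega

lemma rp_le {c1 P1 c2 P2 : ℕ} (h1 : c1 / 512 ≤ 304) (h2 : c2 / 512 ≤ 304) (k1 : P1 ≤ 65535)
    (k2 : P2 ≤ 65535) : rp c1 P1 c2 P2 ≤ 2 ^ 24 := by
  unfold rp
  have h3 := num_bound h1 h2 k1 k2
  have h4 := fun g (hg : q2 c1 c2 = g + 1) => q2_le hg
  generalize nP c1 P1 c2 P2 = N at h3 ⊢
  generalize nN c1 P1 c2 P2 = M at h3 ⊢
  generalize q1 c1 c2 = u
  generalize q2 c1 c2 = v at h4 ⊢
  exact rG_le h3 h4

lemma mx_le {u v B : ℕ} (h1 : u ≤ B) (h2 : v ≤ B) : mx u v ≤ B := by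
  have : mx u v = u + (v - u) := rfl
  omega

lemma sh_le {c : ℕ} (h : c / 512 ≤ 304) : sh c / 512 ≤ 304 := by rw [sh_div]; exact h

lemma dp_le {c : ℕ} : dp c / 512 ≤ 304 := by rw [dp_div]; omega

lemma wop_le {c P : ℕ} (h : c / 512 ≤ 304) (k : P ≤ 65535) : wop c P ≤ 2 ^ 24 := by
  rw [wop_eq]
  split_ifs
  · norm_num
  · exact rp_le (by norm_num) (sh_le h) (by norm_num) k

lemma wst_le {c : ℕ} (h : c / 512 ≤ 304) : wst c ≤ 2 ^ 24 := by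
  rw [wst_eq]
  split_ifs
  · norm_num
  · norm_num
  · exact rp_le (by norm_num) (sh_le h) (by norm_num) (by norm_num)

lemma sel_le {t a0 a1 a2 a3 : ℕ} (ht : t ≤ 4) (h0 : t = 0 → a0 ≤ 2 ^ 24) (h1 : t = 1 → a1 ≤ 2 ^ 24)
    (h2 : t = 2 → a2 ≤ 2 ^ 24) (h3 : t = 3 → a3 ≤ 2 ^ 24) : sel t a0 a1 a2 a3 ≤ 2 ^ 24 := by
  obtain h | h | h | h | h : t = 0 ∨ t = 1 ∨ t = 2 ∨ t = 3 ∨ t = 4 := by omega
  · rw [h, sel0]; exact h0 h
  · rw [h, sel1]; exact h1 h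
  · rw [h, sel2]; exact h2 h
  · rw [h, sel3]; exact h3 h
  · rw [h, sel4]; norm_num

lemma ty_le (c P w : ℕ) : ty c P w ≤ 4 := by
  rcases ty_cases c P w with ⟨h, -⟩ | ⟨h, -⟩ | ⟨h, -⟩ | ⟨h, -⟩ | h <;> rw [h] <;> norm_num

lemma ty_three {c P w : ℕ} (h : ty c P w = 3) : Nat.add P w ≤ 65535 := by
  show P + w ≤ 65535
  rcases ty_cases c P w with ⟨h1, -⟩ | ⟨h1, -⟩ | ⟨h1, -⟩ | ⟨-, -, -, h1, -⟩ | h1
  · omega
  · omega
  · omega
  · exact h1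
  · omega

/-- **the number of a pair of nodes is at most `2 ^ 24`** -/
theorem rup_le {c1 P1 w1 c2 P2 w2 : ℕ} (h1 : c1 / 512 ≤ 304) (h2 : c2 / 512 ≤ 304)
    (k1 : P1 ≤ 65535) (k2 : P2 ≤ 65535) : rup c1 P1 w1 c2 P2 w2 ≤ 2 ^ 24 := by
  have r := rp_le h1 h2 k1 k2
  have s1 := sh_le h1
  have s2 := sh_le h2
  have d1 := dp_le (c := c1)
  have d2 := dp_le (c := c2)
  have o1 := wop_le h1 k1
  have o2 := wop_le h2 k2
  have t1 := wst_le h1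
  have t2 := wst_le h2
  unfold rup
  refine sel_le (ty_le _ _ _) (fun _ => ?_) (fun _ => ?_) (fun _ => ?_) (fun e1 => ?_)
  · unfold rup0
    refine sel_le (ty_le _ _ _) (fun _ => r) (fun _ => r) (fun _ => mx_le r o1) (fun e2 => ?_)
    exact mx_le (rp_le h1 s2 k1 k2) (rp_le h1 d2 k1 (ty_three e2))
  · unfold rup1
    refine sel_le (ty_le _ _ _) (fun _ => r) (fun _ => by norm_num) (fun _ => mx_le r t1)
      (fun e2 => ?_)
    exact mx_le (rp_le h1 s2 k1 k2) (rp_le h1 d2 k1 (ty_three e2))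
  · unfold rup2
    refine sel_le (ty_le _ _ _) (fun _ => mx_le r o2) (fun _ => mx_le r t2)
      (fun _ => mx_le r (mx_le o1 o2)) (fun e2 => ?_)
    rw [wsp_eq]
    split_ifs
    · exact mx_le (mx_le (rp_le h1 s2 k1 k2) (rp_le h1 d2 k1 (ty_three e2))) (by norm_num)
    · norm_num
  · unfold rup3
    have q1 := ty_three e1
    refine sel_le (ty_le _ _ _) (fun _ => mx_le (rp_le s1 h2 k1 k2) (rp_le d1 h2 q1 k2))
      (fun _ => mx_le (rp_le s1 h2 k1 k2) (rp_le d1 h2 q1 k2)) (fun _ => ?_) (fun e2 => ?_)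
    · rw [spw_eq]
      split_ifs
      · exact mx_le (mx_le (rp_le s1 h2 k1 k2) (rp_le d1 h2 q1 k2)) (by norm_num)
      · norm_num
    have q2 := ty_three e2
    exact mx_le (mx_le (rp_le s1 s2 k1 k2) (rp_le s1 d2 k1 q2))
      (mx_le (rp_le d1 s2 q1 k2) (rp_le d1 d2 q1 q2))

end Pool.Agent.Helper65.KR
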