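import Pool.Agent.Helper65.KR.Rup
import Pool.Agent.Helper65.KR.RateN
import Pool.Agent.Helper66.Kiss.LeafC

set_option autoImplicit false

/-! # Soundness of the number of a pair of nodes -/

namespace Pool.Agent.Helper65.KR

open Real Pool.Agent.Helper66.Kiss

/-! ### cells -/

lemma land511' (c : ℕ) : Nat.land c (nat_lit 511) = c % 512 := land511 c

lemma shr9' (c : ℕ) : Nat.shiftRight c (nat_lit 9) = c / 512 := shr9 c

lemma gc_mono {i j : ℕ} (h : i ≤ j) : gc i ≤ gc j := by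
  unfold gc
  have : (i : ℝ) ≤ j := Nat.cast_le.2 h
  linarith

lemma gc48 : gc 48 = -(1 / 2) := by unfold gc; norm_num

lemma gc304 : gc 304 = 1 / 2 := by unfold gc; norm_num

lemma sh_eq (c : ℕ) : sh c = c + (48 - c % 512) := by
  unfold sh; rw [land511']; rfl

lemma dp_eq (c : ℕ) : dp c = c - 512 * (c / 512 - 48) := by
  unfold dp; rw [shr9']; rfl

lemma sh_mod (c : ℕ) : sh c % 512 = max (c % 512) 48 := by rw [sh_eq]; omega

lemma sh_div (c : ℕ) : sh c / 512 = c / 512 := by rw [sh_eq]; omega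

lemma dp_mod (c : ℕ) : dp c % 512 = c % 512 := by rw [dp_eq]; omega

lemma dp_div (c : ℕ) : dp c / 512 = min (c / 512) 48 := by rw [dp_eq]; omega

lemma InC.sh {c : ℕ} {x : ℝ} (h : InC c x) (hx : -(1 / 2) ≤ x) : InC (sh c) x := by
  refine ⟨?_, ?_⟩
  · rw [sh_mod]
    rcases le_total (c % 512) 48 with h1 | h1
    · rw [max_eq_right h1, gc48]; exact hx
    · rw [max_eq_left h1]; exact h.1
  · rw [sh_div]; exact h.2

lemma InC.dp {c : ℕ} {x : ℝ} (h : InC c x) (hx : x ≤ -(1 / 2)) : InC (dp c) x := by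
  refine ⟨?_, ?_⟩
  · rw [dp_mod]; exact h.1
  · rw [dp_div]
    rcases le_total (c / 512) 48 with h1 | h1
    · rw [min_eq_left h1]; exact h.2
    · rw [min_eq_right h1, gc48]; exact hx

lemma inC_wall : InC 155952 (1 / 2) := by
  unfold InC
  have h1 : 155952 % 512 = 304 := by norm_num
  have h2 : 155952 / 512 = 304 := by norm_num
  rw [h1, h2, gc304]
  exact ⟨le_rfl, le_rfl⟩

lemma vel_zero (ρ : ℝ) : vel ρ 32768 = 0 := by unfold vel; norm_num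

lemma vel_pos {ρ : ℝ} (hρ : 0 < ρ) {P : ℕ} (h : 32768 < P) : 0 < vel ρ P := by
  unfold vel
  have : ((32768 : ℕ) : ℝ) < P := Nat.cast_lt.2 h
  push_cast at this
  exact mul_pos (by linarith) hρ

lemma vel_nonneg {ρ : ℝ} (hρ : 0 < ρ) {P : ℕ} (h : 32768 ≤ P) : 0 ≤ vel ρ P := by
  rcases h.eq_or_lt with h | h
  · rw [← h, vel_zero]
  · exact (vel_pos hρ h).le

lemma vel_nonpos {ρ : ℝ} (hρ : 0 < ρ) {P : ℕ} (h : P ≤ 32768) : vel ρ P ≤ 0 := by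
  unfold vel
  have : (P : ℝ) ≤ ((32768 : ℕ) : ℝ) := Nat.cast_le.2 h
  push_cast at this
  exact mul_nonpos_of_nonpos_of_nonneg (by linarith) hρ.le

/-! ### types -/

lemma rcs (A B a b : ℕ) : Nat.rec (motive := fun _ => ℕ) A (fun _ _ => B) (Nat.sub a b) =
    if a ≤ b then A else B := by
  by_cases h : a ≤ b
  · have : Nat.sub a b = 0 := Nat.sub_eq_zero_of_le h
    rw [this, if_pos h]
    rfl
  · obtain ⟨k, hk⟩ : ∃ k, Nat.sub a b = k + 1 := ⟨a - b - 1, by show a - b = _; omega⟩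
    rw [hk, if_neg h]

/-- the type with general constants -/
def tyG (K T M h P w : ℕ) : ℕ :=
  Nat.rec (motive := fun _ => ℕ)
    (Nat.rec (motive := fun _ => ℕ)
      (Nat.rec (motive := fun _ => ℕ) (nat_lit 1) (fun _ _ => nat_lit 0)
        (Nat.sub K P))
      (fun _ _ => Nat.rec (motive := fun _ => ℕ) (nat_lit 0) (fun _ _ => nat_lit 2)
        (Nat.sub h T))
      (Nat.sub P K))
    (fun _ _ => Nat.rec (motive := fun _ => ℕ)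
      (Nat.rec (motive := fun _ => ℕ)
        (Nat.rec (motive := fun _ => ℕ) (nat_lit 3)
          (fun _ _ => Nat.rec (motive := fun _ => ℕ) (nat_lit 3) (fun _ _ => nat_lit 4)
            (Nat.sub h T))
          (Nat.sub P K))
        (fun _ _ => nat_lit 4)
        (Nat.sub (Nat.add P w) M))
      (fun _ _ => nat_lit 4)
      (Nat.sub K P))
    w

lemma tyG_cases (K T M h P w : ℕ) :
    (tyG K T M h P w = 0 ∧ w = 0 ∧ P ≠ K ∧ (P ≤ K ∨ h ≤ T)) ∨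
    (tyG K T M h P w = 1 ∧ w = 0 ∧ P = K) ∨
    (tyG K T M h P w = 2 ∧ w = 0 ∧ K < P ∧ T < h) ∨
    (tyG K T M h P w = 3 ∧ 0 < w ∧ K ≤ P ∧ P + w ≤ M ∧ (P = K ∨ h ≤ T)) ∨
    tyG K T M h P w = 4 := by
  cases w with
  | zero =>
    have e : tyG K T M h P 0 =
        if P ≤ K then (if K ≤ P then 1 else 0) else (if h ≤ T then 0 else 2) := by
      rw [← rcs, ← rcs, ← rcs]
      rfl
    rw [e]
    split_ifs <;> omega
  | succ w =>
    have e : tyG K T M h P (w + 1) =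
        if K ≤ P then (if P + (w + 1) ≤ M then (if P ≤ K then 3 else
          (if h ≤ T then 3 else 4)) else 4) else 4 := by
      rw [← rcs, ← rcs, ← rcs, ← rcs]
      rfl
    rw [e]
    split_ifs <;> omega

lemma ty_cases (c P w : ℕ) :
    (ty c P w = 0 ∧ w = 0 ∧ P ≠ 32768 ∧ (P ≤ 32768 ∨ c / 512 ≤ 303)) ∨
    (ty c P w = 1 ∧ w = 0 ∧ P = 32768) ∨
    (ty c P w = 2 ∧ w = 0 ∧ 32768 < P ∧ 304 ≤ c / 512) ∨
    (ty c P w = 3 ∧ 0 < w ∧ 32768 ≤ P ∧ P + w ≤ 65535 ∧ (P = 32768 ∨ c / 512 ≤ 303)) ∨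
    ty c P w = 4 := by
  have e : ty c P w = tyG (nat_lit 32768) (nat_lit 303) (nat_lit 65535)
    (Nat.shiftRight c (nat_lit 9)) P w := rfl
  rw [e, shr9']
  exact tyG_cases (nat_lit 32768) (nat_lit 303) (nat_lit 65535) (c / 512) P w

/-- admissible velocities -/
lemma ty_vw {ρ : ℝ} (hρ : 0 < ρ) {c P w : ℕ} (h : ty c P w ≠ 4) :
    VW (vel ρ P) (vel ρ (P + w)) := by
  rcases ty_cases c P w with ⟨-, h1, -⟩ | ⟨-, h1, -⟩ | ⟨-, h1, -⟩ | ⟨-, h1, h2, -⟩ | h1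
  · left; rw [h1, add_zero]
  · left; rw [h1, add_zero]
  · left; rw [h1, add_zero]
  · right
    refine ⟨vel_nonneg hρ h2, ?_⟩
    unfold vel
    have : (0 : ℝ) < w := Nat.cast_pos.2 h1
    push_cast
    nlinarith
  · exact absurd h1 h

/-! ### real side -/

/-- the velocities at `x` are in the set `S` -/
def NV (V W x : ℝ) (S : ℝ → Prop) : Prop :=
  (∃ s, S s ∧ hLo V W x = s * (1 - x ^ 2)) ∧ (∃ s, S s ∧ hHi V W x = s * (1 - x ^ 2))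

lemma nv_plain {V x : ℝ} (h : V ≤ 0 ∨ x < 1 / 2) : NV V V x (fun s => s = V) := by
  constructor
  · refine ⟨V, rfl, ?_⟩
    unfold hLo
    rw [if_neg (by rintro ⟨h1, h2⟩; rcases h with h | h <;> linarith)]
    split_ifs <;> rfl
  · refine ⟨V, rfl, ?_⟩
    unfold hHi
    split_ifs <;> rfl

lemma nv_wall {V x : ℝ} : NV V V x (fun s => s = V ∨ (x = 1 / 2 ∧ s = 0)) := by
  constructor
  · unfold hLo
    by_cases h : x = 1 / 2 ∧ 0 < V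
    · refine ⟨0, Or.inr ⟨h.1, rfl⟩, ?_⟩
      rw [if_pos h, zero_mul]
    · refine ⟨V, Or.inl rfl, ?_⟩
      rw [if_neg h]
      split_ifs <;> rfl
  · refine ⟨V, Or.inl rfl, ?_⟩
    unfold hHi
    split_ifs <;> rfl

lemma nv_span {V W x : ℝ} (h : V = 0 ∨ x < 1 / 2) :
    NV V W x (fun s => (s = V ∧ -(1 / 2) ≤ x) ∨ (s = W ∧ x ≤ -(1 / 2))) := by
  constructor
  · unfold hLo
    rw [if_neg (by rintro ⟨h1, h2⟩; rcases h with h | h <;> linarith)]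
    by_cases hx : x < -(1 / 2)
    · exact ⟨W, Or.inr ⟨rfl, hx.le⟩, by rw [if_pos hx]⟩
    · exact ⟨V, Or.inl ⟨rfl, not_lt.1 hx⟩, by rw [if_neg hx]⟩
  · unfold hHi
    by_cases hx : x ≤ -(1 / 2)
    · exact ⟨W, Or.inr ⟨rfl, hx⟩, by rw [if_pos hx]⟩
    · exact ⟨V, Or.inl ⟨rfl, (not_le.1 hx).le⟩, by rw [if_neg hx]⟩

lemma one_sub_pos {x : ℝ} (h : -1 < x) (h' : x ≤ 1 / 2) : 0 < 1 - x ^ 2 := by nlinarith

lemma nr_LL {x y s t : ℝ} (hx : -1 < x) (hx' : x ≤ 1 / 2) (hy : -1 < y) (hy' : y ≤ 1 / 2) :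
    nr x y (s * (1 - x ^ 2)) (t * (1 - y ^ 2)) = LL x y s t := by
  have h1 := (one_sub_pos hx hx').ne'
  have h2 := (one_sub_pos hy hy').ne'
  unfold nr LL
  field_simp

lemma RR_sq_lt_iff {x y : ℝ} (hx : -1 < x) (hx' : x ≤ 1 / 2) (hy : -1 < y) (hy' : y ≤ 1 / 2) :
    RR x y ^ 2 < 1 ↔ 0 < QQ x y := by
  have h1 := one_sub_pos hx hx'
  have h2 := one_sub_pos hy hy'
  unfold RR QQ
  rw [div_pow, mul_pow, Real.sq_sqrt h1.le, Real.sq_sqrt h2.le, div_lt_one (mul_pos h1 h2)]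
  constructor <;> intro h <;> nlinarith

lemma good_rate {x y s t c : ℝ} (hx : -1 < x) (hx' : x ≤ 1 / 2) (hy : -1 < y) (hy' : y ≤ 1 / 2)
    (h : Good x y s t c) :
    (RR x y ^ 2 < 1 → rate x y (s * (1 - x ^ 2)) (t * (1 - y ^ 2)) ≤ c) ∧
    (1 ≤ RR x y ^ 2 → nr x y (s * (1 - x ^ 2)) (t * (1 - y ^ 2)) < 0) := by
  constructor
  · intro h1
    have h2 := h.1 ((RR_sq_lt_iff hx hx' hy hy').1 h1)
    unfold rate rt
    rw [nr_LL hx hx' hy hy']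
    exact h2
  · intro h1
    rw [nr_LL hx hx' hy hy']
    refine h.2 ?_
    by_contra hcon
    exact absurd ((RR_sq_lt_iff hx hx' hy hy').2 (not_le.1 hcon)) (not_lt.2 h1)

lemma ebp_of {x y V W V' W' c : ℝ} {S S' : ℝ → Prop} (hx : -1 < x) (hx' : x ≤ 1 / 2) (hy : -1 < y)
    (hy' : y ≤ 1 / 2) (h1 : NV V W x S) (h2 : NV V' W' y S')
    (h : ∀ s s', S s → S' s' → Good x y s s' c) : EBp x y V W V' W' c := by
  obtain ⟨⟨a, ha, ea⟩, ⟨b, hb, eb⟩⟩ := h1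
  obtain ⟨⟨a', ha', ea'⟩, ⟨b', hb', eb'⟩⟩ := h2
  left
  rw [ea, eb, ea', eb']
  have g1 := good_rate hx hx' hy hy' (h a a' ha ha')
  have g2 := good_rate hx hx' hy hy' (h a b' ha hb')
  have g3 := good_rate hx hx' hy hy' (h b a' hb ha')
  have g4 := good_rate hx hx' hy hy' (h b b' hb hb')
  exact ⟨fun k => ⟨g1.1 k, g2.1 k, g3.1 k, g4.1 k⟩, fun k => ⟨g1.2 k, g2.2 k, g3.2 k, g4.2 k⟩⟩

/-- the number `R` is good for the pair of nodes -/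
def RG (ρ x y V W V' W' : ℝ) (R : ℕ) : Prop :=
  2 ^ 23 + 2 ^ 22 + 2 ^ 21 ≤ R ∨ (2 ^ 23 - 2 ^ 18 ≤ R ∧
    EBr x y V W V' W' (((R : ℝ) - 8388618) * ρ))

lemma RG.symm {ρ x y V W V' W' : ℝ} {R : ℕ} (h : RG ρ x y V W V' W' R) :
    RG ρ y x V' W' V W R := by
  rcases h with h | ⟨h1, h2⟩
  · exact Or.inl h
  · exact Or.inr ⟨h1, h2.symm⟩

lemma RG.mono {ρ x y V W V' W' : ℝ} {R R' : ℕ} (hρ : 0 < ρ) (h : RG ρ x y V W V' W' R)
    (hR : R ≤ R') : RG ρ x y V W V' W' R' := by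
  rcases h with h | ⟨h1, h2⟩
  · exact Or.inl (h.trans hR)
  · refine Or.inr ⟨h1.trans hR, h2.mono ?_⟩
    have : (R : ℝ) ≤ R' := Nat.cast_le.2 hR
    exact mul_le_mul_of_nonneg_right (by linarith) hρ.le

lemma LL_comm (x y p q : ℝ) : LL x y p q = LL y x q p := by unfold LL; ring

lemma QQ_comm (x y : ℝ) : QQ x y = QQ y x := by unfold QQ; ring

lemma PG.symm {ρ x y p q : ℝ} {R : ℕ} (h : PG ρ x y p q R) : PG ρ y x q p R := by
  rcases h with h | ⟨h1, h2, h3⟩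
  · exact Or.inl h
  · refine Or.inr ⟨h1, ?_⟩
    unfold Good
    rw [← LL_comm, ← QQ_comm]
    exact ⟨h2, h3⟩

lemma rg_of {ρ x y V W V' W' : ℝ} {R : ℕ} {S S' : ℝ → Prop} (hx : -1 < x) (hx' : x ≤ 1 / 2)
    (hy : -1 < y) (hy' : y ≤ 1 / 2) (h1 : NV V W x S) (h2 : NV V' W' y S')
    (h : ∀ s s', S s → S' s' → PG ρ x y s s' R) : RG ρ x y V W V' W' R := by
  by_cases hb : 2 ^ 23 + 2 ^ 22 + 2 ^ 21 ≤ R
  · exact Or.inl hb
  · have h' : ∀ s s', S s → S' s' → 2 ^ 23 - 2 ^ 18 ≤ R ∧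
        Good x y s s' (((R : ℝ) - 8388618) * ρ) := fun s s' hs hs' =>
      (h s s' hs hs').resolve_left hb
    obtain ⟨a, ha, -⟩ := h1.1
    obtain ⟨a', ha', -⟩ := h2.1
    exact Or.inr ⟨(h' a a' ha ha').1, Or.inl (ebp_of hx hx' hy hy' h1 h2
      fun s s' hs hs' => (h' s s' hs hs').2)⟩

/-- contacts with a point at the wall -/
lemma wall_above {y : ℝ} (hy : -1 < y) (hy' : y ≤ 1 / 2) (h : RR (1 / 2) y ≤ 1) :
    -(1 / 2) ≤ y := by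
  by_contra hcon
  push Not at hcon
  have h1 := one_sub_pos hy hy'
  have h3 : (0 : ℝ) < 1 - (1 / 2) ^ 2 := by norm_num
  have h2 : 0 < √(1 - (1 / 2 : ℝ) ^ 2) * √(1 - y ^ 2) :=
    mul_pos (Real.sqrt_pos.2 h3) (Real.sqrt_pos.2 h1)
  unfold RR at h
  rw [div_le_one h2] at h
  have h4 : (1 / 2 - 1 / 2 * y) ^ 2 ≤ (√(1 - (1 / 2 : ℝ) ^ 2) * √(1 - y ^ 2)) ^ 2 :=
    pow_le_pow_left₀ (by linarith) h 2
  rw [mul_pow, Real.sq_sqrt h3.le, Real.sq_sqrt h1.le] at h4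
  nlinarith

lemma div_ge_of_above {c : ℕ} {y : ℝ} (h : InC c y) (hy : -(1 / 2) ≤ y) : 48 ≤ c / 512 := by
  by_contra hcon
  have h1 : c / 512 + 1 ≤ 48 := by omega
  have h2 := h.2
  unfold gc at h2
  have h3 : ((c / 512 : ℕ) : ℝ) + 1 ≤ 48 := by exact_mod_cast h1
  linarith

lemma wop_eq (c P : ℕ) : wop c P = if c / 512 ≤ 47 then 0 else rp 155952 32768 (sh c) P := by
  have e : ∀ T R h : ℕ, Nat.rec (motive := fun _ => ℕ) 0 (fun _ _ => R) (Nat.sub h T) =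
    if h ≤ T then 0 else R := fun T R h => rcs 0 R h T
  have e2 := e (nat_lit 47) (rp (nat_lit 155952) (nat_lit 32768) (sh c) P)
    (Nat.shiftRight c (nat_lit 9))
  rw [shr9'] at e2
  unfold wop
  rw [shr9']
  exact e2

lemma wst_eq (c : ℕ) : wst c = if c / 512 ≤ 47 then 0 else (if c / 512 ≤ 239 then 8388618 else
    rp 155952 32768 (sh c) 32768) := by
  have e : ∀ T U A R h : ℕ, Nat.rec (motive := fun _ => ℕ) 0 (fun _ _ =>
    Nat.rec (motive := fun _ => ℕ) A (fun _ _ => R) (Nat.sub h U)) (Nat.sub h T) =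
    if h ≤ T then 0 else (if h ≤ U then A else R) := fun T U A R h => by
      rw [← rcs, ← rcs]
  have e2 := e (nat_lit 47) (nat_lit 239) (nat_lit 8388618)
    (rp (nat_lit 155952) (nat_lit 32768) (sh c) (nat_lit 32768)) (Nat.shiftRight c (nat_lit 9))
  rw [shr9'] at e2
  unfold wst
  rw [shr9']
  exact e2

lemma wop_sound {ρ : ℝ} (hρ : 0 < ρ) {c P : ℕ} {y : ℝ} (h : InC c y) (hy : -(1 / 2) ≤ y) :
    PG ρ (1 / 2) y 0 (vel ρ P) (wop c P) := by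
  have h1 := div_ge_of_above h hy
  rw [wop_eq, if_neg (by omega)]
  have := rp_sound hρ (c1 := 155952) (P1 := 32768) (P2 := P) inC_wall (h.sh hy)
  rwa [vel_zero] at this

lemma wst_cases {c : ℕ} (h1 : 48 ≤ c / 512) : (c / 512 ≤ 239 ∧ wst c = 8388618) ∨
    wst c = rp 155952 32768 (sh c) 32768 := by
  rw [wst_eq, if_neg (by omega)]
  split_ifs with h
  · exact Or.inl ⟨h, rfl⟩
  · exact Or.inr rfl

lemma mx_ge (u v : ℕ) : u ≤ mx u v ∧ v ≤ mx u v := by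
  have : mx u v = u + (v - u) := rfl
  omega

lemma lt_half_of {c : ℕ} {x : ℝ} (h : InC c x) (hc : c / 512 ≤ 303) : x < 1 / 2 := by
  have h1 := h.2.trans (gc_mono hc)
  have h2 : gc 303 < 1 / 2 := by unfold gc; norm_num
  linarith

section

variable {ρ x y : ℝ} {c1 P1 w1 c2 P2 w2 R : ℕ}

lemma rg_wall_static (hρ : 0 < ρ) {V : ℝ} (hx : -1 < x) (hx' : x ≤ 1 / 2) (hy : -1 < y)
    (hy' : y ≤ 1 / 2) (hV : 0 < V) (hc : InC c2 y) (h1 : PG ρ x y V 0 R) (h2 : wst c2 ≤ R)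
    (hR : RR x y ≤ 1) : RG ρ x y V V 0 0 R := by
  by_cases hx1 : x = 1 / 2
  · subst hx1
    have hy1 := wall_above hy hy' hR
    rcases wst_cases (div_ge_of_above hc hy1) with ⟨h3, h4⟩ | h3
    · rw [h4] at h2
      refine Or.inr ⟨le_trans (by norm_num) h2, Or.inr (Or.inl ⟨rfl, rfl, hV.le, ?_, ?_⟩)⟩
      · have h5 := hc.2.trans (gc_mono h3)
        have h6 : gc 239 < 1 / 2 / 2 := by unfold gc; norm_num
        linarith
      · have h5 : ((8388618 : ℕ) : ℝ) ≤ R := Nat.cast_le.2 h2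
        push_cast at h5
        exact mul_nonneg (by linarith) hρ.le
    · have h4 : PG ρ (1 / 2) y 0 0 R := by
        have := rp_sound hρ (c1 := 155952) (P1 := 32768) (P2 := 32768) inC_wall (hc.sh hy1)
        rw [vel_zero] at this
        exact this.mono hρ (h3 ▸ h2)
      refine rg_of hx hx' hy hy' nv_wall (nv_plain (Or.inl le_rfl)) ?_
      rintro s s' (hs | ⟨-, hs⟩) hs'
      · rw [hs, hs']; exact h1
      · rw [hs, hs']; exact h4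
  · refine rg_of hx hx' hy hy' (nv_plain (Or.inr (lt_of_le_of_ne hx' hx1)))
      (nv_plain (Or.inl le_rfl)) ?_
    intro s s' hs hs'
    rw [hs, hs']; exact h1

lemma pg_zero {V : ℝ} (hV : 0 < V) (h : PG ρ (1 / 2) (1 / 2) 0 V R) :
    PG ρ (1 / 2) (1 / 2) 0 0 R := by
  rcases h with h | ⟨h1, h2, -⟩
  · exact Or.inl h
  · have hQ : QQ (1 / 2) (1 / 2) = 1 / 2 := by unfold QQ; norm_num
    rw [hQ] at h2
    have h3 := h2 (by norm_num)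
    have h4 : 0 < LL (1 / 2) (1 / 2) 0 V / √(1 / 2) := by
      refine div_pos ?_ (Real.sqrt_pos.2 (by norm_num))
      unfold LL; linarith
    refine Or.inr ⟨h1, fun _ => ?_, fun h5 => ?_⟩
    · have : LL (1 / 2) (1 / 2) 0 0 = 0 := by unfold LL; ring
      rw [this, zero_div]
      linarith
    · rw [hQ] at h5
      norm_num at h5

lemma sel0 (a0 a1 a2 a3 : ℕ) : sel 0 a0 a1 a2 a3 = a0 := rfl
lemma sel1 (a0 a1 a2 a3 : ℕ) : sel 1 a0 a1 a2 a3 = a1 := rfl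
lemma sel2 (a0 a1 a2 a3 : ℕ) : sel 2 a0 a1 a2 a3 = a2 := rfl
lemma sel3 (a0 a1 a2 a3 : ℕ) : sel 3 a0 a1 a2 a3 = a3 := rfl
lemma sel4 (a0 a1 a2 a3 : ℕ) : sel 4 a0 a1 a2 a3 = 14680064 := rfl

lemma rg_bad {V W V' W' : ℝ} : RG ρ x y V W V' W' 14680064 := Or.inl (by norm_num)

/-- one velocity against one velocity -/
lemma rg_11 (hρ : 0 < ρ) (hx : -1 < x) (hx' : x ≤ 1 / 2) (hy : -1 < y) (hy' : y ≤ 1 / 2)
    (h1 : InC c1 x) (h2 : InC c2 y) (k1 : vel ρ P1 ≤ 0 ∨ x < 1 / 2)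
    (k2 : vel ρ P2 ≤ 0 ∨ y < 1 / 2) :
    RG ρ x y (vel ρ P1) (vel ρ P1) (vel ρ P2) (vel ρ P2) (rp c1 P1 c2 P2) := by
  refine rg_of hx hx' hy hy' (nv_plain k1) (nv_plain k2) ?_
  intro s s' hs hs'
  rw [hs, hs']
  exact rp_sound hρ h1 h2

/-- one velocity against two velocities -/
lemma rg_12 (hρ : 0 < ρ) (hx : -1 < x) (hx' : x ≤ 1 / 2) (hy : -1 < y) (hy' : y ≤ 1 / 2)
    (h1 : InC c1 x) (h2 : InC c2 y) (k1 : vel ρ P1 ≤ 0 ∨ x < 1 / 2)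
    (k2 : vel ρ P2 = 0 ∨ y < 1 / 2) :
    RG ρ x y (vel ρ P1) (vel ρ P1) (vel ρ P2) (vel ρ (P2 + w2))
      (mx (rp c1 P1 (sh c2) P2) (rp c1 P1 (dp c2) (Nat.add P2 w2))) := by
  obtain ⟨m1, m2⟩ := mx_ge (rp c1 P1 (sh c2) P2) (rp c1 P1 (dp c2) (Nat.add P2 w2))
  refine rg_of hx hx' hy hy' (nv_plain k1) (nv_span k2) ?_
  rintro s s' hs (⟨hs', g⟩ | ⟨hs', g⟩)
  · rw [hs, hs']
    exact (rp_sound hρ h1 (h2.sh g)).mono hρ m1
  · rw [hs, hs']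
    exact (rp_sound hρ h1 (h2.dp g)).mono hρ m2

/-- two velocities against one velocity -/
lemma rg_21 (hρ : 0 < ρ) (hx : -1 < x) (hx' : x ≤ 1 / 2) (hy : -1 < y) (hy' : y ≤ 1 / 2)
    (h1 : InC c1 x) (h2 : InC c2 y) (k1 : vel ρ P1 = 0 ∨ x < 1 / 2)
    (k2 : vel ρ P2 ≤ 0 ∨ y < 1 / 2) :
    RG ρ x y (vel ρ P1) (vel ρ (P1 + w1)) (vel ρ P2) (vel ρ P2)
      (mx (rp (sh c1) P1 c2 P2) (rp (dp c1) (Nat.add P1 w1) c2 P2)) := by
  obtain ⟨m1, m2⟩ := mx_ge (rp (sh c1) P1 c2 P2) (rp (dp c1) (Nat.add P1 w1) c2 P2)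
  refine rg_of hx hx' hy hy' (nv_span k1) (nv_plain k2) ?_
  rintro s s' (⟨hs, g⟩ | ⟨hs, g⟩) hs'
  · rw [hs, hs']
    exact (rp_sound hρ (h1.sh g) h2).mono hρ m1
  · rw [hs, hs']
    exact (rp_sound hρ (h1.dp g) h2).mono hρ m2

/-- two velocities against two velocities -/
lemma rg_22 (hρ : 0 < ρ) (hx : -1 < x) (hx' : x ≤ 1 / 2) (hy : -1 < y) (hy' : y ≤ 1 / 2)
    (h1 : InC c1 x) (h2 : InC c2 y) (k1 : vel ρ P1 = 0 ∨ x < 1 / 2)
    (k2 : vel ρ P2 = 0 ∨ y < 1 / 2) :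
    RG ρ x y (vel ρ P1) (vel ρ (P1 + w1)) (vel ρ P2) (vel ρ (P2 + w2))
      (mx (mx (rp (sh c1) P1 (sh c2) P2) (rp (sh c1) P1 (dp c2) (Nat.add P2 w2)))
      (mx (rp (dp c1) (Nat.add P1 w1) (sh c2) P2)
        (rp (dp c1) (Nat.add P1 w1) (dp c2) (Nat.add P2 w2)))) := by
  obtain ⟨m1, m2⟩ := mx_ge (rp (sh c1) P1 (sh c2) P2) (rp (sh c1) P1 (dp c2) (Nat.add P2 w2))
  obtain ⟨m3, m4⟩ := mx_ge (rp (dp c1) (Nat.add P1 w1) (sh c2) P2)
        (rp (dp c1) (Nat.add P1 w1) (dp c2) (Nat.add P2 w2))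
  obtain ⟨m5, m6⟩ := mx_ge (mx (rp (sh c1) P1 (sh c2) P2) (rp (sh c1) P1 (dp c2) (Nat.add P2 w2)))
      (mx (rp (dp c1) (Nat.add P1 w1) (sh c2) P2)
        (rp (dp c1) (Nat.add P1 w1) (dp c2) (Nat.add P2 w2)))
  refine rg_of hx hx' hy hy' (nv_span k1) (nv_span k2) ?_
  rintro s s' (⟨hs, g⟩ | ⟨hs, g⟩) (⟨hs', g'⟩ | ⟨hs', g'⟩)
  · rw [hs, hs']
    exact (rp_sound hρ (h1.sh g) (h2.sh g')).mono hρ (m1.trans m5)
  · rw [hs, hs']
    exact (rp_sound hρ (h1.sh g) (h2.dp g')).mono hρ (m2.trans m5)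
  · rw [hs, hs']
    exact (rp_sound hρ (h1.dp g) (h2.sh g')).mono hρ (m3.trans m6)
  · rw [hs, hs']
    exact (rp_sound hρ (h1.dp g) (h2.dp g')).mono hρ (m4.trans m6)

/-- wall against one velocity -/
lemma rg_w1 (hρ : 0 < ρ) (hx : -1 < x) (hx' : x ≤ 1 / 2) (hy : -1 < y) (hy' : y ≤ 1 / 2)
    (h2 : InC c2 y) {V : ℝ} (k2 : vel ρ P2 ≤ 0 ∨ y < 1 / 2)
    (hR : RR x y ≤ 1) (g1 : PG ρ x y V (vel ρ P2) R) (g2 : wop c2 P2 ≤ R) :
    RG ρ x y V V (vel ρ P2) (vel ρ P2) R := by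
  refine rg_of hx hx' hy hy' nv_wall (nv_plain k2) ?_
  rintro s s' (hs | ⟨hx1, hs⟩) hs'
  · rw [hs, hs']; exact g1
  · rw [hs, hs']
    subst hx1
    exact (wop_sound hρ h2 (wall_above hy hy' hR)).mono hρ g2

/-- wall against wall -/
lemma rg_ww (hρ : 0 < ρ) (hx : -1 < x) (hx' : x ≤ 1 / 2) (hy : -1 < y) (hy' : y ≤ 1 / 2)
    (h1 : InC c1 x) (h2 : InC c2 y) (k2 : 0 < vel ρ P2) (hR : RR x y ≤ 1)
    (g1 : PG ρ x y (vel ρ P1) (vel ρ P2) R) (g2 : wop c1 P1 ≤ R) (g3 : wop c2 P2 ≤ R) :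
    RG ρ x y (vel ρ P1) (vel ρ P1) (vel ρ P2) (vel ρ P2) R := by
  refine rg_of hx hx' hy hy' nv_wall nv_wall ?_
  rintro s s' (hs | ⟨hx1, hs⟩) (hs' | ⟨hy1, hs'⟩)
  · rw [hs, hs']; exact g1
  · rw [hs, hs']
    subst hy1
    rw [RR_comm] at hR
    exact ((wop_sound hρ h1 (wall_above hx hx' hR)).mono hρ g2).symm
  · rw [hs, hs']
    subst hx1
    exact (wop_sound hρ h2 (wall_above hy hy' hR)).mono hρ g3
  · rw [hs, hs']
    subst hx1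
    subst hy1
    exact pg_zero k2 ((wop_sound hρ h2 (by norm_num)).mono hρ g3)

lemma qq_wall {y : ℝ} (h : -(1 / 2) < y) (h' : y ≤ 1 / 2) : 0 < QQ (1 / 2) y := by
  unfold QQ
  nlinarith [mul_pos (by linarith : 0 < 1 - y) (by linarith : 0 < y + 1 / 2)]

/-- wall against two velocities -/
lemma rg_w2 (hρ : 0 < ρ) (hx : -1 < x) (hx' : x ≤ 1 / 2) (hy : -1 < y) (hy' : y ≤ 1 / 2)
    (h1 : InC c1 x) (h2 : InC c2 y) (k1 : 0 < vel ρ P1) (k2 : vel ρ P2 = 0)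
    (k3 : 0 < vel ρ (P2 + w2)) (hR : RR x y ≤ 1) (g1 : rp c1 P1 (sh c2) P2 ≤ R)
    (g2 : rp c1 P1 (dp c2) (Nat.add P2 w2) ≤ R) (g3 : 8388618 ≤ R) :
    RG ρ x y (vel ρ P1) (vel ρ P1) (vel ρ P2) (vel ρ (P2 + w2)) R := by
  have hc : 0 ≤ ((R : ℝ) - 8388618) * ρ := by
    have h5 : ((8388618 : ℕ) : ℝ) ≤ R := Nat.cast_le.2 g3
    push_cast at h5
    exact mul_nonneg (by linarith) hρ.le
  have hB : 2 ^ 23 - 2 ^ 18 ≤ R := le_trans (by norm_num) g3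
  have p1 : -(1 / 2) ≤ y → PG ρ x y (vel ρ P1) 0 R := fun h => by
    have := (rp_sound hρ (P1 := P1) (P2 := P2) h1 (h2.sh h)).mono hρ g1
    rwa [k2] at this
  have p2 : y ≤ -(1 / 2) → PG ρ x y (vel ρ P1) (vel ρ (P2 + w2)) R := fun h =>
    (rp_sound hρ (P1 := P1) (P2 := Nat.add P2 w2) h1 (h2.dp h)).mono hρ g2
  rw [k2]
  rcases lt_trichotomy y (-(1 / 2)) with hy1 | hy1 | hy1
  · -- deep: the other point is not at the wall
    have hx1 : x < 1 / 2 := by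
      refine lt_of_le_of_ne hx' fun h => ?_
      subst h
      linarith [wall_above hy hy' hR]
    refine rg_of hx hx' hy hy' (nv_plain (Or.inr hx1)) (nv_span (V := 0) (Or.inl rfl)) ?_
    rintro s s' hs (⟨-, g⟩ | ⟨hs', g⟩)
    · linarith
    · rw [hs, hs']; exact p2 g
  · by_cases hx1 : x = 1 / 2
    · rcases p2 hy1.le with h | ⟨-, -, h⟩
      · exact Or.inl h
      · have hQ : QQ x y ≤ 0 := by rw [hx1, hy1]; unfold QQ; norm_num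
        have h3 := h hQ
        rw [← nr_LL hx hx' hy hy'] at h3
        exact Or.inr ⟨hB, Or.inr (Or.inr (Or.inr (Or.inl ⟨hx1, hy1, rfl, k1, rfl, k3, h3, hc⟩)))⟩
    · refine rg_of hx hx' hy hy' (nv_plain (Or.inr (lt_of_le_of_ne hx' hx1)))
        (nv_span (V := 0) (Or.inl rfl)) ?_
      rintro s s' hs (⟨hs', g⟩ | ⟨hs', g⟩)
      · rw [hs, hs']; exact p1 g
      · rw [hs, hs']; exact p2 g
  · -- above the touching height the second point is static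
    have hn : NV 0 (vel ρ (P2 + w2)) y (fun s => s = 0) := by
      constructor
      · refine ⟨0, rfl, ?_⟩
        unfold hLo
        rw [if_neg (by rintro ⟨-, h⟩; exact absurd h (lt_irrefl _)), if_neg (not_lt.2 hy1.le)]
      · refine ⟨0, rfl, ?_⟩
        unfold hHi
        rw [if_neg (not_le.2 hy1)]
    refine rg_of hx hx' hy hy' nv_wall hn ?_
    rintro s s' (hs | ⟨hx1, hs⟩) hs'
    · rw [hs, hs']; exact p1 hy1.le
    · rw [hs, hs']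
      refine Or.inr ⟨hB, fun _ => ?_, fun h => ?_⟩
      · have : LL x y 0 0 = 0 := by unfold LL; ring
        rw [this, zero_div]; exact hc
      · exfalso
        rw [hx1] at h
        exact absurd (qq_wall hy1 hy') (not_lt.2 h)

lemma gte_eq (T B X P : ℕ) : gte T B X P = if P ≤ T then X else B := rcs X B P T

lemma wsp_eq (c1 P1 c2 P2 w2 : ℕ) : wsp c1 P1 c2 P2 w2 = if P2 ≤ 32768 then
    (mx (mx (rp c1 P1 (sh c2) P2) (rp c1 P1 (dp c2) (Nat.add P2 w2))) 8388618) else 14680064 := by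
  unfold wsp
  exact gte_eq _ _ _ _

lemma spw_eq (c1 P1 w1 c2 P2 : ℕ) : spw c1 P1 w1 c2 P2 = if P1 ≤ 32768 then
    (mx (mx (rp (sh c1) P1 c2 P2) (rp (dp c1) (Nat.add P1 w1) c2 P2)) 8388618) else 14680064 := by
  unfold spw
  exact gte_eq _ _ _ _

/-- two velocities against wall -/
lemma rg_2w (hρ : 0 < ρ) (hx : -1 < x) (hx' : x ≤ 1 / 2) (hy : -1 < y) (hy' : y ≤ 1 / 2)
    (h1 : InC c1 x) (h2 : InC c2 y) (k2 : 0 < vel ρ P2) (k1 : vel ρ P1 = 0)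
    (k3 : 0 < vel ρ (P1 + w1)) (hR : RR x y ≤ 1) (g1 : rp (sh c1) P1 c2 P2 ≤ R)
    (g2 : rp (dp c1) (Nat.add P1 w1) c2 P2 ≤ R) (g3 : 8388618 ≤ R) :
    RG ρ x y (vel ρ P1) (vel ρ (P1 + w1)) (vel ρ P2) (vel ρ P2) R := by
  have hc : 0 ≤ ((R : ℝ) - 8388618) * ρ := by
    have h5 : ((8388618 : ℕ) : ℝ) ≤ R := Nat.cast_le.2 g3
    push_cast at h5
    exact mul_nonneg (by linarith) hρ.le
  have hB : 2 ^ 23 - 2 ^ 18 ≤ R := le_trans (by norm_num) g3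
  have hR' : RR y x ≤ 1 := by rw [RR_comm]; exact hR
  have p1 : -(1 / 2) ≤ x → PG ρ x y 0 (vel ρ P2) R := fun h => by
    have := (rp_sound hρ (P1 := P1) (P2 := P2) (h1.sh h) h2).mono hρ g1
    rwa [k1] at this
  have p2 : x ≤ -(1 / 2) → PG ρ x y (vel ρ (P1 + w1)) (vel ρ P2) R := fun h =>
    (rp_sound hρ (P1 := Nat.add P1 w1) (P2 := P2) (h1.dp h) h2).mono hρ g2
  rw [k1]
  rcases lt_trichotomy x (-(1 / 2)) with hy1 | hy1 | hy1
  · have hx1 : y < 1 / 2 := by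
      refine lt_of_le_of_ne hy' fun h => ?_
      subst h
      linarith [wall_above hx hx' hR']
    refine rg_of hx hx' hy hy' (nv_span (V := 0) (Or.inl rfl)) (nv_plain (Or.inr hx1)) ?_
    rintro s s' (⟨-, g⟩ | ⟨hs, g⟩) hs'
    · linarith
    · rw [hs, hs']; exact p2 g
  · by_cases hx1 : y = 1 / 2
    · rcases p2 hy1.le with h | ⟨-, -, h⟩
      · exact Or.inl h
      · have hQ : QQ x y ≤ 0 := by rw [hx1, hy1]; unfold QQ; norm_num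
        have h3 := h hQ
        rw [← nr_LL hx hx' hy hy'] at h3
        exact Or.inr ⟨hB, Or.inr (Or.inr (Or.inr (Or.inr ⟨hy1, hx1, rfl, k2, rfl, k3, h3, hc⟩)))⟩
    · refine rg_of hx hx' hy hy' (nv_span (V := 0) (Or.inl rfl))
        (nv_plain (Or.inr (lt_of_le_of_ne hy' hx1))) ?_
      rintro s s' (⟨hs, g⟩ | ⟨hs, g⟩) hs'
      · rw [hs, hs']; exact p1 g
      · rw [hs, hs']; exact p2 g
  · have hn : NV 0 (vel ρ (P1 + w1)) x (fun s => s = 0) := by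
      constructor
      · refine ⟨0, rfl, ?_⟩
        unfold hLo
        rw [if_neg (by rintro ⟨-, h⟩; exact absurd h (lt_irrefl _)), if_neg (not_lt.2 hy1.le)]
      · refine ⟨0, rfl, ?_⟩
        unfold hHi
        rw [if_neg (not_le.2 hy1)]
    refine rg_of hx hx' hy hy' hn nv_wall ?_
    rintro s s' hs (hs' | ⟨hx1, hs'⟩)
    · rw [hs, hs']; exact p1 hy1.le
    · rw [hs, hs']
      refine Or.inr ⟨hB, fun _ => ?_, fun h => ?_⟩
      · have : LL x y 0 0 = 0 := by unfold LL; ring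
        rw [this, zero_div]; exact hc
      · exfalso
        rw [hx1, QQ_comm] at h
        exact absurd (qq_wall hy1 hx') (not_lt.2 h)

/-- the kinds of a node -/
def Kd (ρ x : ℝ) (c P w : ℕ) : Prop :=
  (ty c P w = 0 ∧ w = 0 ∧ (vel ρ P ≤ 0 ∨ x < 1 / 2)) ∨ (ty c P w = 1 ∧ w = 0 ∧ P = 32768) ∨
  (ty c P w = 2 ∧ w = 0 ∧ 0 < vel ρ P) ∨
  (ty c P w = 3 ∧ (vel ρ P = 0 ∨ x < 1 / 2) ∧ (P ≤ 32768 → vel ρ P = 0) ∧ 0 < vel ρ (P + w)) ∨
  ty c P w = 4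

lemma kd (hρ : 0 < ρ) {c P w : ℕ} (h : InC c x) : Kd ρ x c P w := by
  rcases ty_cases c P w with ⟨h1, h2, -, h3⟩ | ⟨h1, h2, h3⟩ | ⟨h1, h2, h3, -⟩ | ⟨h1, h2, h4, -, h3⟩ | h1
  · refine Or.inl ⟨h1, h2, ?_⟩
    rcases h3 with h3 | h3
    · exact Or.inl (vel_nonpos hρ h3)
    · exact Or.inr (lt_half_of h h3)
  · exact Or.inr (Or.inl ⟨h1, h2, h3⟩)
  · exact Or.inr (Or.inr (Or.inl ⟨h1, h2, vel_pos hρ h3⟩))
  · refine Or.inr (Or.inr (Or.inr (Or.inl ⟨h1, ?_, fun h5 => ?_, vel_pos hρ (by omega)⟩)))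
    · rcases h3 with h3 | h3
      · left; rw [h3, vel_zero]
      · exact Or.inr (lt_half_of h h3)
    · have : P = 32768 := by omega
      rw [this, vel_zero]
  · exact Or.inr (Or.inr (Or.inr (Or.inr h1)))

/-- the statement about a pair of nodes -/
def RQ (ρ x y V W V' W' : ℝ) (R : ℕ) : Prop :=
  2 ^ 23 + 2 ^ 22 + 2 ^ 21 ≤ R ∨ (2 ^ 23 - 2 ^ 18 ≤ R ∧
    EBq x y V W V' W' ρ (((R : ℝ) - 2 ^ 23) * ρ))

lemma RG.toQ {V W V' W' : ℝ} (h : RG ρ x y V W V' W' R) : RQ ρ x y V W V' W' R := by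
  rcases h with h | ⟨h1, h2⟩
  · exact Or.inl h
  · refine Or.inr ⟨h1, Or.inr ?_⟩
    have e : ((R : ℝ) - 2 ^ 23) * ρ - 10 * ρ = ((R : ℝ) - 8388618) * ρ := by ring
    rw [e]; exact h2

/-- **soundness of the number of a pair of nodes** -/
theorem rup_sound (hρ : 0 < ρ) (hx : -1 < x) (hx' : x ≤ 1 / 2) (hy : -1 < y) (hy' : y ≤ 1 / 2)
    (h1 : InC c1 x) (h2 : InC c2 y) (hR : RR x y ≤ 1) :
    2 ^ 23 + 2 ^ 22 + 2 ^ 21 ≤ rup c1 P1 w1 c2 P2 w2 ∨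
    (2 ^ 23 - 2 ^ 18 ≤ rup c1 P1 w1 c2 P2 w2 ∧
      EBq x y (vel ρ P1) (vel ρ (P1 + w1)) (vel ρ P2) (vel ρ (P2 + w2)) ρ
        (((rup c1 P1 w1 c2 P2 w2 : ℕ) - 2 ^ 23) * ρ)) := by
  show RQ ρ x y (vel ρ P1) (vel ρ (P1 + w1)) (vel ρ P2) (vel ρ (P2 + w2)) (rup c1 P1 w1 c2 P2 w2)
  have r12 := rp_sound hρ (P1 := P1) (P2 := P2) h1 h2
  have hR' : RR y x ≤ 1 := by rw [RR_comm]; exact hR
  unfold rup
  rcases kd hρ (P := P1) (w := w1) h1 with ⟨e1, z1, k1⟩ | ⟨e1, z1, k1⟩ | ⟨e1, z1, k1⟩ |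
    ⟨e1, k1, v1, u1⟩ | e1
  · rw [e1, sel0, z1, add_zero]
    unfold rup0
    rcases kd hρ (P := P2) (w := w2) h2 with ⟨e2, z2, k2⟩ | ⟨e2, z2, k2⟩ | ⟨e2, z2, k2⟩ |
      ⟨e2, k2, v2, u2⟩ | e2
    · rw [e2, sel0, z2, add_zero]
      exact (rg_11 hρ hx hx' hy hy' h1 h2 k1 k2).toQ
    · rw [e2, sel1, z2, add_zero]
      exact (rg_11 hρ hx hx' hy hy' h1 h2 k1 (Or.inl (by rw [k2, vel_zero]))).toQ
    · rw [e2, sel2, z2, add_zero]
      obtain ⟨m1, m2⟩ := mx_ge (rp c1 P1 c2 P2) (wop c1 P1)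
      exact (rg_w1 hρ hy hy' hx hx' h1 k1 hR' (r12.mono hρ m1).symm m2).symm.toQ
    · rw [e2, sel3]
      exact (rg_12 hρ hx hx' hy hy' h1 h2 k1 k2).toQ
    · rw [e2, sel4]; exact rg_bad.toQ
  · rw [e1, sel1, z1, add_zero]
    unfold rup1
    have k1' : vel ρ P1 = 0 := by rw [k1, vel_zero]
    rcases kd hρ (P := P2) (w := w2) h2 with ⟨e2, z2, k2⟩ | ⟨e2, z2, k2⟩ | ⟨e2, z2, k2⟩ |
      ⟨e2, k2, v2, u2⟩ | e2
    · rw [e2, sel0, z2, add_zero]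
      exact (rg_11 hρ hx hx' hy hy' h1 h2 (Or.inl k1'.le) k2).toQ
    · rw [e2, sel1, z2, add_zero]
      have k2' : vel ρ P2 = 0 := by rw [k2, vel_zero]
      refine Or.inr ⟨by norm_num, Or.inl ⟨k1', k1', k2', k2', ?_⟩⟩
      have : (((nat_lit 8388607) : ℕ) : ℝ) = 8388607 := by norm_num
      rw [this]
      have e : ((8388607 : ℝ) - 2 ^ 23) * ρ = -ρ := by ring
      rw [e]
    · rw [e2, sel2, z2, add_zero]
      obtain ⟨m1, m2⟩ := mx_ge (rp c1 P1 c2 P2) (wst c1)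
      have g := rg_wall_static hρ hy hy' hx hx' k2 h1
        (by have := (r12.mono hρ m1).symm; rwa [k1'] at this) m2 hR'
      rw [k1']
      exact g.symm.toQ
    · rw [e2, sel3]
      exact (rg_12 hρ hx hx' hy hy' h1 h2 (Or.inl k1'.le) k2).toQ
    · rw [e2, sel4]; exact rg_bad.toQ
  · rw [e1, sel2, z1, add_zero]
    unfold rup2
    rcases kd hρ (P := P2) (w := w2) h2 with ⟨e2, z2, k2⟩ | ⟨e2, z2, k2⟩ | ⟨e2, z2, k2⟩ |
      ⟨e2, k2, v2, u2⟩ | e2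
    · rw [e2, sel0, z2, add_zero]
      obtain ⟨m1, m2⟩ := mx_ge (rp c1 P1 c2 P2) (wop c2 P2)
      exact (rg_w1 hρ hx hx' hy hy' h2 k2 hR (r12.mono hρ m1) m2).toQ
    · rw [e2, sel1, z2, add_zero]
      have k2' : vel ρ P2 = 0 := by rw [k2, vel_zero]
      obtain ⟨m1, m2⟩ := mx_ge (rp c1 P1 c2 P2) (wst c2)
      have g := rg_wall_static hρ hx hx' hy hy' k1 h2
        (by have := r12.mono hρ m1; rwa [k2'] at this) m2 hR
      rw [k2']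
      exact g.toQ
    · rw [e2, sel2, z2, add_zero]
      obtain ⟨m1, m2⟩ := mx_ge (rp c1 P1 c2 P2) (mx (wop c1 P1) (wop c2 P2))
      obtain ⟨m3, m4⟩ := mx_ge (wop c1 P1) (wop c2 P2)
      exact (rg_ww hρ hx hx' hy hy' h1 h2 k2 hR (r12.mono hρ m1) (m3.trans m2) (m4.trans m2)).toQ
    · rw [e2, sel3, wsp_eq]
      split_ifs with h3
      · obtain ⟨m1, m2⟩ := mx_ge (rp c1 P1 (sh c2) P2) (rp c1 P1 (dp c2) (Nat.add P2 w2))
        obtain ⟨m3, m4⟩ := mx_ge (mx (rp c1 P1 (sh c2) P2) (rp c1 P1 (dp c2) (Nat.add P2 w2))) 8388618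
        exact (rg_w2 hρ hx hx' hy hy' h1 h2 k1 (v2 h3) u2 hR (m1.trans m3) (m2.trans m3) m4).toQ
      · exact rg_bad.toQ
    · rw [e2, sel4]; exact rg_bad.toQ
  · rw [e1, sel3]
    unfold rup3
    rcases kd hρ (P := P2) (w := w2) h2 with ⟨e2, z2, k2⟩ | ⟨e2, z2, k2⟩ | ⟨e2, z2, k2⟩ |
      ⟨e2, k2, v2, u2⟩ | e2
    · rw [e2, sel0, z2, add_zero]
      exact (rg_21 hρ hx hx' hy hy' h1 h2 k1 k2).toQ
    · rw [e2, sel1, z2, add_zero]
      exact (rg_21 hρ hx hx' hy hy' h1 h2 k1 (Or.inl (by rw [k2, vel_zero]))).toQ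
    · rw [e2, sel2, spw_eq, z2, add_zero]
      split_ifs with h3
      · obtain ⟨m1, m2⟩ := mx_ge (rp (sh c1) P1 c2 P2) (rp (dp c1) (Nat.add P1 w1) c2 P2)
        obtain ⟨m3, m4⟩ := mx_ge (mx (rp (sh c1) P1 c2 P2) (rp (dp c1) (Nat.add P1 w1) c2 P2)) 8388618
        exact (rg_2w hρ hx hx' hy hy' h1 h2 k2 (v1 h3) u1 hR (m1.trans m3) (m2.trans m3) m4).toQ
      · exact rg_bad.toQ
    · rw [e2, sel3]
      exact (rg_22 hρ hx hx' hy hy' h1 h2 k1 k2).toQ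
    · rw [e2, sel4]; exact rg_bad.toQ
  · rw [e1, sel4]; exact rg_bad.toQ

end

end Pool.Agent.Helper65.KR
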